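import Pool.Agent.Lib.MP_305fdd_al.F8.D1.X.Lf

/-!
# MP_305fdd_al, `d = 1`, block X1
-/

set_option autoImplicit false

namespace Pool.Agent.F8.D1

open Pool.Agent.MP_305fdd_al Pool.Agent.Lib.MP_305fdd_al Pool.Agent.F2X Pool.Agent.F8
  Pool.Agent.F8.HN Pool.Agent.F8.AB
open Pool.Agent.F8.D7 (mus mus_one mus_ne mus_map sgn)
open scoped QuadraticAlgebra

/-! ### The conjugating element -/

theorem sf_c1 {R : Type} [CommRing R] (y : E1 R) : sf R (c1 R y) = c1 R y := by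
  rw [sf_apply, c1_apply]
  apply S1.ext <;> apply K1.ext <;> simp

theorem se_c1 {R : Type} [CommRing R] (y : E1 R) : se R (c1 R y) = c1 R y := by
  rw [se_apply, c1_apply]
  apply S1.ext
  · rfl
  · simp

theorem se_pow (R : Type) [CommRing R] (k : ℕ) :
    se R (ee R ^ k) = ee R ^ k ∨ se R (ee R ^ k) = -ee R ^ k := by
  rw [map_pow, se_ee]
  rcases Nat.even_or_odd k with h | h
  · left; exact h.neg_pow _
  · right; exact h.neg_pow _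

theorem mul_c {x : O2} {y : O1} (h : hp (c1 _ x) = hz (c1 _ y)) {c : Z1} :
    hz (c * c1 _ y) = hz c * hp (c1 _ x) := by
  rw [map_mul, h]

theorem mul_fc {x : O2} {y : O1} (h : hp (c1 _ x) = hz (c1 _ y)) {c : Z1} :
    hz (c * (ff _ * c1 _ y)) = hz c * hp (ff _ * c1 _ x) := by
  rw [map_mul hp, map_mul, map_mul, h, hp_ff]

/-- The element `γ`. -/
theorem exists_gamma {X : Matrix (Fin 2) (Fin 2) (S1 ℤ_[2])} (h : Shape X) :
    ∃ (γ : SL2 Z1) (c : Z1), (hz (γ.val 0 0) = hz c * hp (X 0 0) ∧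
      hz (γ.val 0 1) = hz c * hp (X 0 1) ∧ hz (γ.val 1 0) = hz c * hp (X 1 0) ∧
      hz (γ.val 1 1) = hz c * hp (X 1 1)) ∧
      (tw (sf ℤ) γ = γ ∨ tw (sf ℤ) γ = -γ) ∧ (SLm (se ℤ) γ = γ ∨ SLm (se ℤ) γ = -γ) := by
  have he := ee_eq ℤ
  have h16 : ee ℤ ^ 16 = 1 := by
    linear_combination (ee ℤ ^ 12 - ee ℤ ^ 8 + ee ℤ ^ 4 - 1) * he
  obtain ⟨x1, x2, x3, x4, ⟨rfl, h1, h4⟩ | ⟨rfl, h2, h3⟩⟩ := h
  · obtain ⟨m, y1, y2, y3, y4, hd, e1, e2, e3, e4⟩ := lift0 x1 x2 x3 x4 h1 h4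
    have hdet : ee ℤ ^ (7 * m) * c1 _ y1 * (ee ℤ ^ (7 * m) * c1 _ y4) -
        ee ℤ ^ (7 * m) * (ff _ * c1 _ y2) * (ee ℤ ^ (7 * m) * (ff _ * c1 _ y3)) = 1 := by
      have h5 := congrArg (c1 ℤ) hd
      rw [map_sub, map_mul, map_mul, map_mul, map_pow, ← ff_sq, ← ee_sq, ← pow_mul] at h5
      have h6 : ee ℤ ^ (7 * m) * ee ℤ ^ (7 * m) * ee ℤ ^ (2 * m) = 1 := by
        rw [← pow_add, ← pow_add]
        have : 7 * m + 7 * m + 2 * m = 16 * m := by ring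
        rw [this, pow_mul, h16, one_pow]
      linear_combination ee ℤ ^ (7 * m) * ee ℤ ^ (7 * m) * h5 + h6
    refine ⟨mx (ee ℤ ^ (7 * m) * c1 _ y1) (ee ℤ ^ (7 * m) * (ff _ * c1 _ y2))
      (ee ℤ ^ (7 * m) * (ff _ * c1 _ y3)) (ee ℤ ^ (7 * m) * c1 _ y4) hdet, ee ℤ ^ (7 * m),
      ?_, Or.inl ?_, ?_⟩
    · rw [mx_00, mx_01, mx_10, mx_11, mul_c e1, mul_fc e2, mul_fc e3, mul_c e4]
      exact ⟨rfl, rfl, rfl, rfl⟩
    · rw [tw_mx]
      apply mx_congr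
      · rw [map_mul, map_pow, sf_ee, sf_c1]
      · rw [map_mul, map_pow, sf_ee, map_mul, sf_ff, sf_c1]; ring
      · rw [map_mul, map_pow, sf_ee, map_mul, sf_ff, sf_c1]; ring
      · rw [map_mul, map_pow, sf_ee, sf_c1]
    · rcases se_pow ℤ (7 * m) with h5 | h5
      · left
        rw [mx_map]
        apply mx_congr
        · rw [map_mul, h5, se_c1]
        · rw [map_mul, h5, map_mul, se_ff, se_c1]
        · rw [map_mul, h5, map_mul, se_ff, se_c1]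
        · rw [map_mul, h5, se_c1]
      · right
        rw [mx_map, mx_neg]
        apply mx_congr
        · rw [map_mul, h5, se_c1]; ring
        · rw [map_mul, h5, map_mul, se_ff, se_c1]; ring
        · rw [map_mul, h5, map_mul, se_ff, se_c1]; ring
        · rw [map_mul, h5, se_c1]; ring
  · obtain ⟨m, y3, y4, y1, y2, hd, e3, e4, e1, e2⟩ := lift0 x3 x4 x1 x2 h3 h2
    have hdet : ee ℤ ^ (7 * m + 14) * (ff _ * c1 _ y1) * (ee ℤ ^ (7 * m + 14) * (ff _ * c1 _ y4)) -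
        ee ℤ ^ (7 * m + 14) * c1 _ y2 * (ee ℤ ^ (7 * m + 14) * c1 _ y3) = 1 := by
      have h5 := congrArg (c1 ℤ) hd
      rw [map_sub, map_mul, map_mul, map_mul, map_pow, ← ff_sq, ← ee_sq, ← pow_mul] at h5
      have h6 : ee ℤ ^ (7 * m + 14) * ee ℤ ^ (7 * m + 14) * ee ℤ ^ (2 * m) * ee ℤ ^ 4 = 1 := by
        rw [← pow_add, ← pow_add, ← pow_add]
        have : 7 * m + 14 + (7 * m + 14) + 2 * m + 4 = 16 * (m + 2) := by ring
        rw [this, pow_mul, h16, one_pow]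
      linear_combination (-ee ℤ ^ (7 * m + 14) * ee ℤ ^ (7 * m + 14)) * h5 + h6 -
        ee ℤ ^ (7 * m + 14) * ee ℤ ^ (7 * m + 14) * ee ℤ ^ (2 * m) * he
    refine ⟨mx (ee ℤ ^ (7 * m + 14) * (ff _ * c1 _ y1)) (ee ℤ ^ (7 * m + 14) * c1 _ y2)
      (ee ℤ ^ (7 * m + 14) * c1 _ y3) (ee ℤ ^ (7 * m + 14) * (ff _ * c1 _ y4)) hdet,
      ee ℤ ^ (7 * m + 14), ?_, Or.inr ?_, ?_⟩
    · rw [mx_00, mx_01, mx_10, mx_11, mul_fc e1, mul_c e2, mul_c e3, mul_fc e4]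
      exact ⟨rfl, rfl, rfl, rfl⟩
    · rw [tw_mx, mx_neg]
      apply mx_congr
      · rw [map_mul, map_pow, sf_ee, map_mul, sf_ff, sf_c1]; ring
      · rw [map_mul, map_pow, sf_ee, sf_c1]
      · rw [map_mul, map_pow, sf_ee, sf_c1]
      · rw [map_mul, map_pow, sf_ee, map_mul, sf_ff, sf_c1]; ring
    · rcases se_pow ℤ (7 * m + 14) with h5 | h5
      · left
        rw [mx_map]
        apply mx_congr
        · rw [map_mul, h5, map_mul, se_ff, se_c1]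
        · rw [map_mul, h5, se_c1]
        · rw [map_mul, h5, se_c1]
        · rw [map_mul, h5, map_mul, se_ff, se_c1]
      · right
        rw [mx_map, mx_neg]
        apply mx_congr
        · rw [map_mul, h5, map_mul, se_ff, se_c1]; ring
        · rw [map_mul, h5, se_c1]; ring
        · rw [map_mul, h5, se_c1]; ring
        · rw [map_mul, h5, map_mul, se_ff, se_c1]; ring

/-! ### The quadratic form -/

section nq

variable {R : Type} [CommRing R]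

/-- a criterion for `NQ` -/
theorem NQ_of {c : R} (g : SL2 R) (α β γ : R)
    (h1 : g.val 0 0 * g.val 0 0 - g.val 0 1 * g.val 0 1 - 1 = c * α)
    (h2 : 2 * (g.val 0 0 * g.val 1 0 - g.val 0 1 * g.val 1 1) = c * β)
    (h3 : g.val 1 0 * g.val 1 0 - g.val 1 1 * g.val 1 1 + 1 = c * γ) : g ∈ NQ c := by
  intro x y
  refine ⟨x ^ 2 * α + x * y * β + y ^ 2 * γ, ?_⟩
  linear_combination x ^ 2 * h1 + x * y * h2 + y ^ 2 * h3

theorem mu1_NQ (e f : R) (he : e ^ 4 + 1 = 0) (hf : f ^ 2 = 1 + e ^ 2) :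
    mu1 e f he hf ∈ NQ (f ^ 6) := by
  have h6 : f ^ 6 = 2 * e ^ 2 - 2 := by
    linear_combination (f ^ 4 + f ^ 2 * (1 + e ^ 2) + (1 + e ^ 2) ^ 2) * hf + (e ^ 2 + 3) * he
  rw [h6]
  apply NQ_of _ 0 f (-1)
  · unfold mu1
    rw [mx_00, mx_01]
    linear_combination e ^ 6 * hf + (e ^ 4 - 1) * he
  · unfold mu1
    rw [mx_00, mx_01, mx_10, mx_11]
    linear_combination (-2 * e ^ 2 * f + 2 * f) * he
  · unfold mu1
    rw [mx_10, mx_11]
    linear_combination (-e ^ 2) * hf + (e ^ 2 - 1) * he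

theorem mv1_NQ (e f : R) (he : e ^ 4 + 1 = 0) (hf : f ^ 2 = 1 + e ^ 2) :
    mv1 e f he hf ∈ NQ (f ^ 6) := by
  have h6 : f ^ 6 = 2 * e ^ 2 - 2 := by
    linear_combination (f ^ 4 + f ^ 2 * (1 + e ^ 2) + (1 + e ^ 2) ^ 2) * hf + (e ^ 2 + 3) * he
  rw [h6]
  apply NQ_of _ 1 (f ^ 3) (-1)
  · unfold mv1
    rw [mx_00, mx_01]
    linear_combination (-e ^ 6) * hf + (-e ^ 4 - e ^ 2 + 1) * he
  · unfold mv1
    rw [mx_00, mx_01, mx_10, mx_11]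
    linear_combination (-2 * e ^ 2 * f + 2 * f) * hf + (2 * f) * he
  · unfold mv1
    rw [mx_10, mx_11]
    linear_combination (e ^ 6) * hf + (e ^ 4 + e ^ 2 - 1) * he

theorem mt1_NQ (e f : R) (he : e ^ 4 + 1 = 0) (hf : f ^ 2 = 1 + e ^ 2) :
    mt1 e f ∈ NQ (f ^ 6) := by
  have h6 : f ^ 6 = 2 * e ^ 2 - 2 := by
    linear_combination (f ^ 4 + f ^ 2 * (1 + e ^ 2) + (1 + e ^ 2) ^ 2) * hf + (e ^ 2 + 3) * he
  rw [h6]
  apply NQ_of _ 1 (-f) 0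
  · unfold mt1
    rw [mx_00, mx_01]
    linear_combination (-(e ^ 2 - 1) ^ 2) * hf + (-e ^ 2 + 1) * he
  · unfold mt1
    rw [mx_00, mx_01, mx_10, mx_11]
    ring
  · unfold mt1
    rw [mx_10, mx_11]
    ring

end nq

theorem r1_NQ (n : ℕ) (g : GA (al1 ^ n)) : r1 n g ∈ NQ (ff ℤ ^ 6) := by
  have hF : ∀ w, rF1 (ee ℤ) (ff ℤ) (ee_eq ℤ) (ff_eq ℤ) w ∈ NQ (ff ℤ ^ 6) := by
    intro w
    have h1 : (NQ (ff ℤ ^ 6)).subtype.comp (liF ⟨_, mu1_NQ (ee ℤ) (ff ℤ) (ee_eq ℤ) (ff_eq ℤ)⟩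
        ⟨_, mv1_NQ (ee ℤ) (ff ℤ) (ee_eq ℤ) (ff_eq ℤ)⟩) =
        rF1 (ee ℤ) (ff ℤ) (ee_eq ℤ) (ff_eq ℤ) := by
      apply hom_ext
      · rw [MonoidHom.comp_apply, liF_ga, rF1_ga]; rfl
      · rw [MonoidHom.comp_apply, liF_gb, rF1_gb]; rfl
    rw [← h1]
    exact Subtype.property _
  obtain ⟨w, k, rfl⟩ := GA_cases _ g
  rw [map_mul, map_zpow, r1_iA, r1_tA]
  exact mul_mem (hF w) (zpow_mem (pow_mem (mt1_NQ (ee ℤ) (ff ℤ) (ee_eq ℤ) (ff_eq ℤ)) n) k)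

/-- the kernel of `hz` -/
theorem ker_hz {z : Z1} (h : hz z = 0) : ff ℤ ^ 6 ∣ z := by
  have h1 : S1m (Int.castRingHom (ZMod (2 ^ 2))) z ∈ I6 := Ideal.Quotient.eq_zero_iff_mem.1 h
  obtain ⟨w, hw⟩ := Ideal.mem_span_singleton.1 h1
  have hsur : ∃ w' : Z1, S1m (Int.castRingHom (ZMod (2 ^ 2))) w' = w := by
    have hE : ∀ v : E1 (ZMod (2 ^ 2)), ∃ v' : O1, (⟨(v'.re : ZMod (2 ^ 2)), (v'.im :
        ZMod (2 ^ 2))⟩ : E1 (ZMod (2 ^ 2))) = v := by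
      intro v
      obtain ⟨p, hp1⟩ := ZMod.intCast_surjective v.re
      obtain ⟨q, hq1⟩ := ZMod.intCast_surjective v.im
      exact ⟨⟨p, q⟩, QuadraticAlgebra.ext hp1 hq1⟩
    obtain ⟨a, ha⟩ := hE w.a.a
    obtain ⟨b, hb⟩ := hE w.a.b
    obtain ⟨c, hc⟩ := hE w.b.a
    obtain ⟨d, hd⟩ := hE w.b.b
    refine ⟨ks (kk1 a b) (kk1 c d), ?_⟩
    rw [S1m_apply]
    apply S1.ext <;> apply K1.ext
    · exact ha
    · exact hb
    · exact hc
    · exact hd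
  obtain ⟨w', rfl⟩ := hsur
  have h2 : S1m (Int.castRingHom (ZMod (2 ^ 2))) (z - ff ℤ ^ 6 * w') = 0 := by
    rw [map_sub, map_mul, map_pow, S1m_ff, hw, sub_self]
  obtain ⟨y, hy⟩ : ∃ y, y = z - ff ℤ ^ 6 * w' := ⟨_, rfl⟩
  rw [← hy, S1m_apply] at h2
  have hd : ∀ v : O1, (⟨(v.re : ZMod (2 ^ 2)), (v.im : ZMod (2 ^ 2))⟩ : E1 (ZMod (2 ^ 2))) = 0 →
      ∃ u : O1, v = 4 * u := by
    intro v hv
    have h3 : ((v.re : ℤ) : ZMod (2 ^ 2)) = 0 := congrArg QuadraticAlgebra.re hv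
    have h4 : ((v.im : ℤ) : ZMod (2 ^ 2)) = 0 := congrArg QuadraticAlgebra.im hv
    rw [ZMod.intCast_zmod_eq_zero_iff_dvd] at h3 h4
    obtain ⟨p, hp1⟩ := h3
    obtain ⟨q, hq1⟩ := h4
    refine ⟨⟨p, q⟩, ?_⟩
    apply QuadraticAlgebra.ext
    · rw [hp1]
      simp only [QuadraticAlgebra.re_mul, QuadraticAlgebra.re_ofNat, QuadraticAlgebra.im_ofNat]
      push_cast
      ring
    · rw [hq1]
      simp only [QuadraticAlgebra.im_mul, QuadraticAlgebra.re_ofNat, QuadraticAlgebra.im_ofNat]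
      push_cast
      ring
  obtain ⟨a, ha⟩ := hd y.a.a (congrArg (fun z : Q4 => z.a.a) h2)
  obtain ⟨b, hb⟩ := hd y.a.b (congrArg (fun z : Q4 => z.a.b) h2)
  obtain ⟨c, hc⟩ := hd y.b.a (congrArg (fun z : Q4 => z.b.a) h2)
  obtain ⟨d, hd'⟩ := hd y.b.b (congrArg (fun z : Q4 => z.b.b) h2)
  have h4 : y = 4 * ks (kk1 a b) (kk1 c d) := by
    have h5 : (4 : Z1) * ks (kk1 a b) (kk1 c d) = ks (kk1 a b) (kk1 c d) +
      ks (kk1 a b) (kk1 c d) + ks (kk1 a b) (kk1 c d) + ks (kk1 a b) (kk1 c d) := by ring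
    rw [h5]
    apply S1.ext <;> apply K1.ext
    · show y.a.a = a + a + a + a
      rw [ha]; ring
    · show y.a.b = b + b + b + b
      rw [hb]; ring
    · show y.b.a = c + c + c + c
      rw [hc]; ring
    · show y.b.b = d + d + d + d
      rw [hd']; ring
  have he := ee_eq ℤ
  have hf := ff_eq ℤ
  have h8 : (4 : Z1) = ff ℤ ^ 6 * (-ff ℤ ^ 2) := by
    have h9 : ff ℤ ^ 8 = (1 + ee ℤ ^ 2) ^ 4 := by rw [← hf]; ring
    linear_combination h9 + (ee ℤ ^ 4 + 4 * ee ℤ ^ 2 + 5) * he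
  refine ⟨w' + (-ff ℤ ^ 2) * ks (kk1 a b) (kk1 c d), ?_⟩
  linear_combination -hy + h4 + ks (kk1 a b) (kk1 c d) * h8

/-! ### The conclusion -/

theorem cj {R : Type} [CommRing R] {γ γ' : SL2 R} (x : SL2 R) (h : γ' = γ ∨ γ' = -γ) :
    γ' * x * γ'⁻¹ = γ * x * γ⁻¹ := by
  rcases h with rfl | rfl
  · rfl
  · rw [mul_inv_eq_iff_eq_mul, mul_neg, neg_mul, inv_mul_cancel_right]

theorem tr_cjg {R : Type} [CommRing R] (γ x : SL2 R) : tr (γ * x * γ⁻¹) = tr x := by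
  show (γ * x * γ⁻¹).val.trace = x.val.trace
  rw [Matrix.SpecialLinearGroup.coe_mul, Matrix.trace_mul_comm,
    ← Matrix.SpecialLinearGroup.coe_mul, inv_mul_cancel_left]

theorem ff6_two : ff (ZMod 2) ^ 6 = 0 := by
  have he := ee_eq (ZMod 2)
  have hf := ff_eq (ZMod 2)
  have h6 : ff (ZMod 2) ^ 6 = 2 * ee (ZMod 2) ^ 2 - 2 := by
    linear_combination (ff (ZMod 2) ^ 4 + ff (ZMod 2) ^ 2 * (1 + ee (ZMod 2) ^ 2) +
      (1 + ee (ZMod 2) ^ 2) ^ 2) * hf + (ee (ZMod 2) ^ 2 + 3) * he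
  have h2 : (2 : S1 (ZMod 2)) = 0 := by
    have h3 : (2 : S1 (ZMod 2)) = c1 _ 2 := (map_ofNat (c1 (ZMod 2)) 2).symm
    have h4 : (2 : E1 (ZMod 2)) = 0 := by
      apply QuadraticAlgebra.ext
      · rfl
      · rfl
    rw [h3, h4, map_zero]
  rw [h6, h2, zero_mul, sub_zero]

/-- the reduction of `ℤ[e, f] / f⁶` modulo `2` -/
def k2 : Q6 →+* S1 (ZMod 2) :=
  Ideal.Quotient.lift I6 (S1m (ZMod.castHom (show 2 ∣ 2 ^ 2 by norm_num) (ZMod 2))) (by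
    intro a ha
    obtain ⟨w, rfl⟩ := Ideal.mem_span_singleton.1 ha
    rw [map_mul, map_pow, S1m_ff, ff6_two, zero_mul])

theorem k2_hz : k2.comp hz = h2 := by
  apply RingHom.ext
  intro z
  show k2 (Ideal.Quotient.mk I6 (S1m (Int.castRingHom (ZMod (2 ^ 2))) z)) = _
  unfold k2
  rw [Ideal.Quotient.lift_mk, ← RingHom.comp_apply, S1m_comp]
  exact congrArg (fun g : ℤ →+* ZMod 2 => S1m g z) (RingHom.ext_int _ _)

theorem p_X1 : S_X1 := by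
  intro n Λ _ Φ χf χe hf he _ ρ hT _ htr
  obtain ⟨r, hM⟩ := exists_mt n Φ χf χe hf he ρ hT htr
  obtain ⟨X, hX, hXr⟩ := exists_XA hM
  obtain ⟨γ, c, ⟨g00, g01, g10, g11⟩, hγf, hγe⟩ := exists_gamma hX
  have m : ∀ (A B : Matrix (Fin 2) (Fin 2) (S1 ℤ_[2])) (i k : Fin 2),
      (A * B) i k = A i 0 * B 0 k + A i 1 * B 1 k := by
    intro A B i k
    rw [Matrix.mul_apply, Fin.sum_univ_two]
  -- the intertwining property modulo `f⁶`
  have hI : ∀ g, SLm hz γ * SLm hp (r g) = SLm hz (r1 n g) * SLm hz γ := by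
    intro g
    have hc : ∀ i j, hp ((SLm (S1m (Int.castRingHom ℤ_[2])) (r1 n g)).val i j) =
        hz ((r1 n g).val i j) := fun i j => hp_cast _
    have e : ∀ i k, hp (X i 0) * hp ((r g).val 0 k) + hp (X i 1) * hp ((r g).val 1 k) =
        hz ((r1 n g).val i 0) * hp (X 0 k) + hz ((r1 n g).val i 1) * hp (X 1 k) := by
      intro i k
      have h1 := congrArg (fun M : Matrix (Fin 2) (Fin 2) (S1 ℤ_[2]) => hp (M i k)) (hXr g)
      simp only [m, map_add, map_mul] at h1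
      rw [hc, hc] at h1
      exact h1
    have e00 := e 0 0
    have e01 := e 0 1
    have e10 := e 1 0
    have e11 := e 1 1
    apply G.SL_ext <;> rw [G.SL_mul, G.SL_mul]
    · show hz (γ.val 0 0) * hp ((r g).val 0 0) + hz (γ.val 0 1) * hp ((r g).val 1 0) =
        hz ((r1 n g).val 0 0) * hz (γ.val 0 0) + hz ((r1 n g).val 0 1) * hz (γ.val 1 0)
      rw [g00, g01, g10]
      linear_combination hz c * e00
    · show hz (γ.val 0 0) * hp ((r g).val 0 1) + hz (γ.val 0 1) * hp ((r g).val 1 1) =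
        hz ((r1 n g).val 0 0) * hz (γ.val 0 1) + hz ((r1 n g).val 0 1) * hz (γ.val 1 1)
      rw [g00, g01, g11]
      linear_combination hz c * e01
    · show hz (γ.val 1 0) * hp ((r g).val 0 0) + hz (γ.val 1 1) * hp ((r g).val 1 0) =
        hz ((r1 n g).val 1 0) * hz (γ.val 0 0) + hz ((r1 n g).val 1 1) * hz (γ.val 1 0)
      rw [g00, g10, g11]
      linear_combination hz c * e10
    · show hz (γ.val 1 0) * hp ((r g).val 0 1) + hz (γ.val 1 1) * hp ((r g).val 1 1) =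
        hz ((r1 n g).val 1 0) * hz (γ.val 0 1) + hz ((r1 n g).val 1 1) * hz (γ.val 1 1)
      rw [g01, g10, g11]
      linear_combination hz c * e11
  obtain ⟨γ', hγ'⟩ : ∃ γ', γ' = SLm hz γ := ⟨_, rfl⟩
  have hI' : (SLm hp).comp r =
      (MulAut.conj γ'⁻¹).toMonoidHom.comp ((SLm hz).comp (r1 n)) := by
    apply MonoidHom.ext
    intro g
    show SLm hp (r g) = γ'⁻¹ * SLm hz (r1 n g) * γ'⁻¹⁻¹
    rw [inv_inv, mul_assoc, hγ', ← hI, inv_mul_cancel_left]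
  have hnat : (SLm hz).comp ρ = Φ.toFun _ ((SLm hp).comp r) := by
    have h2 : Φ.toFun _ ((SLm (S1m (PadicInt.toZModPow 2))).comp r) =
        (SLm (S1m (Int.castRingHom (ZMod (2 ^ 2))))).comp ρ := by
      rw [hM.red 2]
      exact Φ.right_inv _ _
    have h3 := Φ.nat (SLm (Ideal.Quotient.mk I6)) ((SLm (S1m (PadicInt.toZModPow 2))).comp r)
    rw [h2] at h3
    exact h3.symm
  have key : ∀ l, SLm hz (γ * ρ l * γ⁻¹) = Φ.toFun _ ((SLm hz).comp (r1 n)) l := by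
    intro l
    have h4 : (SLm hz).comp ρ = (MulAut.conj γ'⁻¹).toMonoidHom.comp
        (Φ.toFun _ ((SLm hz).comp (r1 n))) := by
      rw [hnat, hI', Φ.nat]
    have h5 : SLm hz (ρ l) = γ'⁻¹ * Φ.toFun _ ((SLm hz).comp (r1 n)) l * γ'⁻¹⁻¹ :=
      DFunLike.congr_fun h4 l
    rw [map_mul, map_mul, map_inv, h5, ← hγ']
    group
  refine ⟨(MulAut.conj γ).toMonoidHom.comp ρ, ?_, ?_, ?_, ?_⟩
  · intro l
    exact tr_cjg γ (ρ l)
  · refine ⟨?_, ?_, ?_, ?_⟩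
    · intro l hl
      show tw (sf ℤ) (γ * ρ l * γ⁻¹) = γ * ρ l * γ⁻¹
      rw [map_mul, map_mul, map_inv, hT.f0 l hl]
      exact cj _ hγf
    · intro l hl
      show tw (sf ℤ) (γ * ρ l * γ⁻¹) = -(γ * ρ l * γ⁻¹)
      rw [map_mul, map_mul, map_inv, hT.f1 l hl, cj _ hγf, mul_neg, neg_mul]
    · intro l hl
      show SLm (se ℤ) (γ * ρ l * γ⁻¹) = γ * ρ l * γ⁻¹
      rw [map_mul, map_mul, map_inv, hT.e0 l hl]
      exact cj _ hγe
    · intro l hl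
      show SLm (se ℤ) (γ * ρ l * γ⁻¹) = -(γ * ρ l * γ⁻¹)
      rw [map_mul, map_mul, map_inv, hT.e1 l hl, cj _ hγe, mul_neg, neg_mul]
  · intro l x y
    obtain ⟨g, hg, -⟩ := pair_val Φ ((SLm hz).comp (r1 n)) ((SLm hz).comp (r1 n)) l
    have h1 : SLm hz (γ * ρ l * γ⁻¹) = SLm hz (r1 n g) := by rw [key, ← hg]; rfl
    have h2 := r1_NQ n g x y
    obtain ⟨M, hMd⟩ : ∃ M, M = γ * ρ l * γ⁻¹ := ⟨_, rfl⟩
    rw [← hMd] at h1
    show ff ℤ ^ 6 ∣ ((x * (γ * ρ l * γ⁻¹).val 0 0 + y * (γ * ρ l * γ⁻¹).val 1 0) ^ 2 -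
      (x * (γ * ρ l * γ⁻¹).val 0 1 + y * (γ * ρ l * γ⁻¹).val 1 1) ^ 2) - (x ^ 2 - y ^ 2)
    rw [← hMd]
    have h00 : hz (M.val 0 0) = hz ((r1 n g).val 0 0) :=
      congrArg (fun z : SL2 Q6 => z.val 0 0) h1
    have h01 : hz (M.val 0 1) = hz ((r1 n g).val 0 1) :=
      congrArg (fun z : SL2 Q6 => z.val 0 1) h1
    have h10 : hz (M.val 1 0) = hz ((r1 n g).val 1 0) :=
      congrArg (fun z : SL2 Q6 => z.val 1 0) h1
    have h11 : hz (M.val 1 1) = hz ((r1 n g).val 1 1) :=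
      congrArg (fun z : SL2 Q6 => z.val 1 1) h1
    have h3 : ff ℤ ^ 6 ∣ (((x * M.val 0 0 + y * M.val 1 0) ^ 2 -
        (x * M.val 0 1 + y * M.val 1 1) ^ 2) - (x ^ 2 - y ^ 2)) -
        (((x * (r1 n g).val 0 0 + y * (r1 n g).val 1 0) ^ 2 -
        (x * (r1 n g).val 0 1 + y * (r1 n g).val 1 1) ^ 2) - (x ^ 2 - y ^ 2)) := by
      apply ker_hz
      simp only [map_sub, map_add, map_mul, map_pow, h00, h01, h10, h11]
      ring
    have h4 := dvd_add h3 h2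
    rw [sub_add_cancel] at h4
    exact h4
  · intro l
    show SLm h2 (γ * ρ l * γ⁻¹) = _
    have h1 : ∀ x : SL2 Z1, SLm h2 x = SLm k2 (SLm hz x) := by
      intro x
      rw [← k2_hz]
      rfl
    have h3 : (SLm k2).comp ((SLm hz).comp (r1 n)) = (SLm h2).comp (r1 n) := by
      rw [← k2_hz]
      rfl
    have h4 := Φ.nat (SLm k2) ((SLm hz).comp (r1 n))
    rw [h3] at h4
    rw [h1, key, h4]
    rfl

end Pool.Agent.F8.D1
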