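import Pool.Agent.Lib.MP_305fdd_al.F8.D1.X.It

/-!
# MP_305fdd_al, `d = 1`, block X1: the intertwiner for the whole group
-/

set_option autoImplicit false

namespace Pool.Agent.F8.D1

open Pool.Agent.MP_305fdd_al Pool.Agent.Lib.MP_305fdd_al Pool.Agent.F2X Pool.Agent.F8
  Pool.Agent.F8.HN Pool.Agent.F8.AB
open Pool.Agent.F8.D7 (mus mus_one mus_ne mus_map sgn)
open scoped QuadraticAlgebra

/-- `SL₂` in the group of the invertible matrices -/
def toU (R : Type) [CommRing R] : SL2 R →* (Matrix (Fin 2) (Fin 2) R)ˣ where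
  toFun g := ⟨g.val, (g⁻¹).val, by rw [← Matrix.SpecialLinearGroup.coe_mul, mul_inv_cancel]; rfl,
    by rw [← Matrix.SpecialLinearGroup.coe_mul, inv_mul_cancel]; rfl⟩
  map_one' := Units.ext rfl
  map_mul' g h := Units.ext (Matrix.SpecialLinearGroup.coe_mul g h)

theorem toU_val {R : Type} [CommRing R] (g : SL2 R) : (toU R g).val = g.val := rfl

theorem ff_nz {z : S1 ℤ_[2]} (h : ff _ * z = 0) : z = 0 := by
  rw [ff_mul] at h
  have h1 : kk1 (pp _ * z.a.b) z.a.a = 0 := congrArg S1.a h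
  have h2 : kk1 (pp _ * z.b.b) z.b.a = 0 := congrArg S1.b h
  apply S1.ext
  · apply K1.ext
    · exact congrArg K1.b h1
    · exact pp_nz (congrArg K1.a h1)
  · apply K1.ext
    · exact congrArg K1.b h2
    · exact pp_nz (congrArg K1.a h2)

theorem ee_nz {z : S1 ℤ_[2]} (h : ee _ * z = 0) : z = 0 := by
  have h1 := ee_eq ℤ_[2]
  linear_combination z * h1 - ee _ ^ 3 * h

theorem two_o2 {x : O2} (h : 2 * x = 0) : x = 0 := neg_o2 (by linear_combination h)

theorem two_nz {z : S1 ℤ_[2]} (h : 2 * z = 0) : z = 0 := by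
  have h0 : z + z = 0 := by linear_combination h
  have h1 : z.a + z.a = 0 := congrArg S1.a h0
  have h2 : z.b + z.b = 0 := congrArg S1.b h0
  have h3 : z.a.a + z.a.a = 0 := congrArg K1.a h1
  have h4 : z.a.b + z.a.b = 0 := congrArg K1.b h1
  have h5 : z.b.a + z.b.a = 0 := congrArg K1.a h2
  have h6 : z.b.b + z.b.b = 0 := congrArg K1.b h2
  apply S1.ext <;> apply K1.ext
  · exact two_o2 (by linear_combination h3)
  · exact two_o2 (by linear_combination h4)
  · exact two_o2 (by linear_combination h5)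
  · exact two_o2 (by linear_combination h6)

/-- the commutant is scalar -/
theorem comm_scal {Z : Matrix (Fin 2) (Fin 2) (S1 ℤ_[2])}
    (h1 : Z * (mu1 (ee _) (ff _) (ee_eq _) (ff_eq _)).val =
      (mu1 (ee _) (ff _) (ee_eq _) (ff_eq _)).val * Z)
    (h2 : Z * (mv1 (ee _) (ff _) (ee_eq _) (ff_eq _)).val =
      (mv1 (ee _) (ff _) (ee_eq _) (ff_eq _)).val * Z) :
    Z = !![Z 0 0, 0; 0, Z 0 0] := by
  have m : ∀ (A B : Matrix (Fin 2) (Fin 2) (S1 ℤ_[2])) (i k : Fin 2),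
      (A * B) i k = A i 0 * B 0 k + A i 1 * B 1 k := by
    intro A B i k
    rw [Matrix.mul_apply, Fin.sum_univ_two]
  have a1 := congrArg (fun M : Matrix (Fin 2) (Fin 2) (S1 ℤ_[2]) => M 0 0) h2
  have a2 := congrArg (fun M : Matrix (Fin 2) (Fin 2) (S1 ℤ_[2]) => M 0 1) h2
  have a3 := congrArg (fun M : Matrix (Fin 2) (Fin 2) (S1 ℤ_[2]) => M 0 1) h1
  unfold mu1 at a3
  unfold mv1 at a1 a2
  simp only [m, mx_00, mx_01, mx_10, mx_11] at a1 a2 a3
  have he := ee_eq ℤ_[2]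
  have hf := ff_eq ℤ_[2]
  have b1 : Z 1 0 = -Z 0 1 := by
    have h3 : Z 1 0 + Z 0 1 = 0 := by
      apply ff_nz
      apply ee_nz
      apply ee_nz
      apply ee_nz
      linear_combination -a1
    linear_combination h3
  have b2 : Z 1 1 = Z 0 0 := by
    have h3 : Z 1 1 - Z 0 0 = 0 := by
      apply ff_nz
      apply ee_nz
      apply ee_nz
      apply ee_nz
      linear_combination -a2
    linear_combination h3
  have b3 : Z 0 1 = 0 := by
    apply ff_nz
    apply ff_nz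
    apply ff_nz
    apply ee_nz
    linear_combination a3 - ee _ ^ 3 * b2 + ee _ * ff _ * Z 0 1 * hf
  apply Matrix.ext
  intro i j
  fin_cases i <;> fin_cases j
  · rfl
  · exact b3
  · show Z 1 0 = 0
    rw [b1, b3, neg_zero]
  · exact b2

theorem Shape.unit {X : Matrix (Fin 2) (Fin 2) (S1 ℤ_[2])} (h : Shape X) : IsUnit X.det := by
  have hf := ff_sq ℤ_[2]
  obtain ⟨x1, x2, x3, x4, ⟨rfl, h1, h4⟩ | ⟨rfl, h2, h3⟩⟩ := h
  · rw [Matrix.det_fin_two_of]
    have h5 : c1 _ x1 * c1 _ x4 - ff _ * c1 _ x2 * (ff _ * c1 _ x3) =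
        c1 _ (x1 * x4 - pp _ * (x2 * x3)) := by
      rw [map_sub, map_mul, map_mul, map_mul, ← hf]
      ring
    rw [h5]
    apply IsUnit.map
    apply unit_of_rs
    simp only [map_sub, map_mul, rs_of_unit h1, rs_of_unit h4, rs_pp, zero_mul, sub_zero, mul_one]
  · rw [Matrix.det_fin_two_of]
    have h5 : ff _ * c1 _ x1 * (ff _ * c1 _ x4) - c1 _ x2 * c1 _ x3 =
        c1 _ (pp _ * (x1 * x4) - x2 * x3) := by
      rw [map_sub, map_mul, map_mul, map_mul, ← hf]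
      ring
    rw [h5]
    apply IsUnit.map
    apply unit_of_rs
    simp only [map_sub, map_mul, rs_of_unit h2, rs_of_unit h3, rs_pp, zero_mul, zero_sub, mul_one]
    decide

section

variable {n : ℕ} {Λ : Type} [Group Λ] {Φ : NatBij (GA (al1 ^ n)) Λ} {ρ : Λ →* SL2 Z1}
  {r : GA (al1 ^ n) →* SL2 (S1 ℤ_[2])}

theorem exists_XA (h : Mt n Φ ρ r) : ∃ X : Matrix (Fin 2) (Fin 2) (S1 ℤ_[2]), Shape X ∧
    ∀ g, X * (r g).val = (SLm (S1m (Int.castRingHom ℤ_[2])) (r1 n g)).val * X := by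
  obtain ⟨X, hX, hU, hV⟩ := exists_X h
  refine ⟨X, hX, ?_⟩
  obtain ⟨u, hu⟩ := (Matrix.isUnit_iff_isUnit_det X).2 hX.unit
  obtain ⟨r', hr'⟩ : ∃ r' : GA (al1 ^ n) →* SL2 (S1 ℤ_[2]),
      r' = (SLm (S1m (Int.castRingHom ℤ_[2]))).comp (r1 n) := ⟨_, rfl⟩
  have r'_ga : r' (iA _ ga) = mu1 (ee _) (ff _) (ee_eq _) (ff_eq _) := by
    rw [hr']; exact r1m_ga _ n
  have r'_gb : r' (iA _ gb) = mv1 (ee _) (ff _) (ee_eq _) (ff_eq _) := by
    rw [hr']; exact r1m_gb _ n
  have r'_tA : r' (tA _) = mx 1 (n * ((ee ℤ_[2] ^ 2 - 1) * ff ℤ_[2])) 0 1 (by ring) := by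
    rw [hr']; exact r1m_tA _ n
  set f1 : GA (al1 ^ n) →* (Matrix (Fin 2) (Fin 2) (S1 ℤ_[2]))ˣ :=
    (MulAut.conj u).toMonoidHom.comp ((toU _).comp r) with hf1
  set f2 : GA (al1 ^ n) →* (Matrix (Fin 2) (Fin 2) (S1 ℤ_[2]))ˣ := (toU _).comp r' with hf2
  have f1_apply : ∀ g, f1 g = u * toU _ (r g) * u⁻¹ := fun g => rfl
  have f2_apply : ∀ g, f2 g = toU _ (r' g) := fun g => rfl
  have ega : f1 (iA _ ga) = f2 (iA _ ga) := by
    rw [f1_apply, f2_apply, mul_inv_eq_iff_eq_mul, r'_ga]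
    apply Units.ext
    rw [Units.val_mul, Units.val_mul, toU_val, toU_val, hu]
    exact hU
  have egb : f1 (iA _ gb) = f2 (iA _ gb) := by
    rw [f1_apply, f2_apply, mul_inv_eq_iff_eq_mul, r'_gb]
    apply Units.ext
    rw [Units.val_mul, Units.val_mul, toU_val, toU_val, hu]
    exact hV
  have eF : ∀ w, f1 (iA _ w) = f2 (iA _ w) := by
    intro w
    have h1 : f1.comp (iA (al1 ^ n)) = f2.comp (iA (al1 ^ n)) := hom_ext ega egb
    exact DFunLike.congr_fun h1 w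
  -- the element `Z`
  obtain ⟨Z, hZ⟩ : ∃ Z, Z = (f2 (tA _))⁻¹ * f1 (tA _) := ⟨_, rfl⟩
  have hcomm : ∀ w, Z * f2 (iA _ w) = f2 (iA _ w) * Z := by
    intro w
    have h1 := congrArg f1 (tA_conj (al1 ^ n) w)
    have h2 := congrArg f2 (tA_conj (al1 ^ n) w)
    rw [map_mul, map_mul, map_inv] at h1 h2
    rw [eF, eF, ← h2] at h1
    rw [hZ]
    have h3 : f1 (tA _) * f2 (iA _ w) =
        f2 (tA _) * f2 (iA _ w) * (f2 (tA _))⁻¹ * f1 (tA _) := by
      rw [← h1]
      group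
    calc (f2 (tA _))⁻¹ * f1 (tA _) * f2 (iA _ w) = (f2 (tA _))⁻¹ * (f1 (tA _) * f2 (iA _ w)) := by
          group
      _ = f2 (iA _ w) * ((f2 (tA _))⁻¹ * f1 (tA _)) := by
          rw [h3]
          group
  have hZa := congrArg Units.val (hcomm ga)
  have hZb := congrArg Units.val (hcomm gb)
  rw [Units.val_mul, Units.val_mul, f2_apply, toU_val, r'_ga] at hZa
  rw [Units.val_mul, Units.val_mul, f2_apply, toU_val, r'_gb] at hZb
  have hZs := comm_scal hZa hZb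
  have et0 : f1 (tA _) = f2 (tA _) * Z := by rw [hZ]; group
  have htr : Z.val 0 0 = 1 := by
    have h1 : (f1 (tA _)).val.trace = (2 : S1 ℤ_[2]) := by
      rw [f1_apply, Units.val_mul, Units.val_mul, Matrix.trace_mul_comm, ← mul_assoc,
        Units.inv_mul, one_mul, toU_val]
      have h2 := h.tr' (tA _)
      have h3 : (SLm (S1m (Int.castRingHom ℤ_[2]))) (r1 n (tA _)) = r' (tA _) := by rw [hr']; rfl
      rw [h3, r'_tA, mx_tr] at h2
      have h4 : (r (tA _)).val.trace = tr (r (tA _)) := rfl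
      rw [h4, h2]
      norm_num
    have h5 := congrArg (fun U : (Matrix (Fin 2) (Fin 2) (S1 ℤ_[2]))ˣ => U.val.trace) et0
    simp only [Units.val_mul] at h5
    rw [h1, hZs, f2_apply, toU_val, r'_tA, Matrix.trace_fin_two] at h5
    simp only [Matrix.mul_apply, Fin.sum_univ_two] at h5
    rw [mx_00, mx_01, mx_10, mx_11] at h5
    have h6 : (2 : S1 ℤ_[2]) = 1 * Z.val 0 0 +
      (n * ((ee ℤ_[2] ^ 2 - 1) * ff ℤ_[2])) * 0 +
      (0 * 0 + 1 * Z.val 0 0) := h5
    have h7 : 2 * (Z.val 0 0 - 1) = 0 := by linear_combination -h6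
    linear_combination two_nz h7
  have hZ1 : Z = 1 := by
    apply Units.ext
    rw [hZs, htr, Units.val_one, Matrix.one_fin_two]
  have et : f1 (tA _) = f2 (tA _) := by rw [et0, hZ1, mul_one]
  have e12 : f1 = f2 := homA_ext' ega egb et
  intro g
  have h1 := DFunLike.congr_fun e12 g
  rw [f1_apply, f2_apply, mul_inv_eq_iff_eq_mul] at h1
  have h2 := congrArg Units.val h1
  rw [Units.val_mul, Units.val_mul, toU_val, toU_val, hu, hr'] at h2
  exact h2

end

end Pool.Agent.F8.D1
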