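import Pool.Agent.Lib.MP_305fdd_al.F8.D1.X.Ring

/-!
# MP_305fdd_al, `d = 1`, block X1: the intertwiner over `ℤ₂[i]`
-/

set_option autoImplicit false

namespace Pool.Agent.F8.D1

open Pool.Agent.MP_305fdd_al Pool.Agent.Lib.MP_305fdd_al Pool.Agent.F2X Pool.Agent.F8
  Pool.Agent.F8.HN Pool.Agent.F8.AB
open scoped QuadraticAlgebra

/-- The normal form of `v`: `x + y f n` intertwines `v` and `v₀`. -/
theorem mid {a b c d : O2} (h1 : a + d = -2) (h2 : c + ii ℤ_[2] * b + (1 - ii ℤ_[2]) * d =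
    ii ℤ_[2] - 3) (h3 : a * d - pp ℤ_[2] * (b * c) = -ii ℤ_[2]) : ∃ x y : O2,
    x * (d - (ii ℤ_[2] - 2)) + y * (pp ℤ_[2] * (ii ℤ_[2] * b + (1 - ii ℤ_[2]) * d -
      (-ii ℤ_[2] - 2) - (1 - ii ℤ_[2]) * (ii ℤ_[2] - 2))) = 0 ∧
    x * (b + 1) + y * (d + ii ℤ_[2] + 2) = 0 ∧ (IsUnit x ∨ ∃ x', x = pp ℤ_[2] * x' ∧ IsUnit y) := by
  have hi := ii_sq ℤ_[2]
  have hp := pp_eq ℤ_[2]
  set i := ii ℤ_[2] with hi0
  set π := pp ℤ_[2] with hp0
  set w := d - (i - 2) with hw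
  set w' := π * (i * b + (1 - i) * d - (-i - 2) - (1 - i) * (i - 2)) with hw'
  set p := b + 1 with hpp
  set p' := d + i + 2 with hpp'
  have key : w * p' = w' * p := by
    rw [hw, hpp', hw', hpp, hp]
    have ha : a = -2 - d := by linear_combination h1
    have hc : c = i - 3 - i * b - (1 - i) * d := by linear_combination h2
    rw [ha, hc, hp] at h3
    linear_combination (-1 : O2) * h3 + (-b * b - b * d - 3 * b - d - 2 + (b * b + 2 * b + d * b + 2 * d + 2 - i - i * b)) * hi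
  -- a nonzero solution
  obtain ⟨x, y, hx1, hx2, hne⟩ : ∃ x y : O2, x * w + y * w' = 0 ∧ x * p + y * p' = 0 ∧
      ¬ (x = 0 ∧ y = 0) := by
    by_cases h4 : w' = 0 ∧ w = 0
    · by_cases h5 : p' = 0 ∧ p = 0
      · exact ⟨1, 0, by rw [h4.2]; ring, by rw [h5.2]; ring, fun h => one_ne_zero h.1⟩
      · exact ⟨p', -p, by rw [h4.1, h4.2]; ring, by ring, fun h => h5 ⟨h.1, neg_eq_zero.1 h.2⟩⟩
    · exact ⟨w', -w, by ring, by linear_combination -key, fun h => h4 ⟨h.1, neg_eq_zero.1 h.2⟩⟩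
  obtain ⟨m, x', y', rfl, rfl, hu⟩ := prim x y hne
  refine ⟨x', y', ?_, ?_, ?_⟩
  · apply pp_pow_nz (m := m)
    linear_combination hx1
  · apply pp_pow_nz (m := m)
    linear_combination hx2
  · rcases zmod2 (rs x') with h4 | h4
    · right
      obtain ⟨x2, hx2'⟩ := dvd_of_rs h4
      refine ⟨x2, hx2', ?_⟩
      rcases hu with hu | hu
      · rw [rs_of_unit hu] at h4
        exact absurd h4 (by decide)
      · exact hu
    · exact Or.inl (unit_of_rs h4)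

end Pool.Agent.F8.D1
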