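import Pool.Agent.Lib.MP_305fdd_al.F8.D1.X.Mt2

/-!
# MP_305fdd_al, `d = 1`, block X1: the entries of the matched representation
-/

set_option autoImplicit false

namespace Pool.Agent.F8.D1

open Pool.Agent.MP_305fdd_al Pool.Agent.Lib.MP_305fdd_al Pool.Agent.F2X Pool.Agent.F8
  Pool.Agent.F8.HN Pool.Agent.F8.AB
open Pool.Agent.F8.D7 (mus mus_one mus_ne mus_map sgn)
open scoped QuadraticAlgebra

theorem ee_mul {R : Type} [CommRing R] (z : S1 R) : ee R * z = ks (ik R * z.b) z.a := by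
  apply S1.ext
  · rw [S1.mul_a]
    simp [ee]
  · rw [S1.mul_b]
    simp [ee]

theorem ff_mul {R : Type} [CommRing R] (z : S1 R) : ff R * z =
    ks (kk1 (pp R * z.a.b) z.a.a) (kk1 (pp R * z.b.b) z.b.a) := by
  apply S1.ext
  · rw [S1.mul_a]
    apply K1.ext
    · simp [ff, K1.mul_a]
    · simp [ff, K1.mul_b]
  · rw [S1.mul_b]
    apply K1.ext
    · simp [ff, K1.mul_a]
    · simp [ff, K1.mul_b]

theorem fc_eq {R : Type} [CommRing R] (p : E1 R) : ff R * c1 R p = ks (kk1 0 p) 0 := by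
  rw [ff_mul, c1_apply]
  apply S1.ext
  · apply K1.ext <;> simp
  · apply K1.ext <;> simp

theorem ec_eq {R : Type} [CommRing R] (p : E1 R) : ee R * c1 R p = ks 0 (kk1 p 0) := by
  rw [ee_mul, c1_apply]
  apply S1.ext
  · simp
  · simp

theorem efc_eq {R : Type} [CommRing R] (p : E1 R) : ee R * (ff R * c1 R p) = ks 0 (kk1 0 p) := by
  rw [fc_eq, ee_mul]
  apply S1.ext
  · simp
  · simp

theorem c1_inj {R : Type} [CommRing R] {p q : E1 R} (h : c1 R p = c1 R q) : p = q :=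
  congrArg (fun z : S1 R => z.a.a) h

theorem fc_inj {R : Type} [CommRing R] {p q : E1 R} (h : ff R * c1 R p = ff R * c1 R q) :
    p = q := by
  rw [fc_eq, fc_eq] at h
  exact congrArg (fun z : S1 R => z.a.b) h

theorem ec_inj {R : Type} [CommRing R] {p q : E1 R} (h : ee R * c1 R p = ee R * c1 R q) :
    p = q := by
  rw [ec_eq, ec_eq] at h
  exact congrArg (fun z : S1 R => z.b.a) h

theorem efc_inj {R : Type} [CommRing R] {p q : E1 R}
    (h : ee R * (ff R * c1 R p) = ee R * (ff R * c1 R q)) : p = q := by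
  rw [efc_eq, efc_eq] at h
  exact congrArg (fun z : S1 R => z.b.b) h

theorem neg_o2 {x : O2} (h : x = -x) : x = 0 := by
  have h1 := congrArg QuadraticAlgebra.re h
  have h2 := congrArg QuadraticAlgebra.im h
  rw [QuadraticAlgebra.re_neg] at h1
  rw [QuadraticAlgebra.im_neg] at h2
  have h3 : (2 : ℤ_[2]) * x.re = 0 := by linear_combination h1
  have h4 : (2 : ℤ_[2]) * x.im = 0 := by linear_combination h2
  have h5 : (2 : ℤ_[2]) ≠ 0 := two_ne_zero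
  exact QuadraticAlgebra.ext ((mul_eq_zero.1 h3).resolve_left h5)
    ((mul_eq_zero.1 h4).resolve_left h5)

theorem z_b {z : S1 ℤ_[2]} (h : se _ z = z) : z.b = 0 := by
  rw [se_apply] at h
  have h1 : -z.b = z.b := congrArg S1.b h
  apply K1.ext
  · exact neg_o2 (congrArg K1.a h1).symm
  · exact neg_o2 (congrArg K1.b h1).symm

theorem z_a {z : S1 ℤ_[2]} (h : se _ z = -z) : z.a = 0 := by
  rw [se_apply] at h
  have h1 : z.a = -z.a := congrArg S1.a h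
  apply K1.ext
  · exact neg_o2 (congrArg K1.a h1)
  · exact neg_o2 (congrArg K1.b h1)

theorem ty00 {z : S1 ℤ_[2]} (h : sf _ z = z) (h' : se _ z = z) : ∃ p, z = c1 _ p := by
  refine ⟨z.a.a, ?_⟩
  have h1 := z_b h'
  rw [sf_apply] at h
  have h2 : -z.a.b = z.a.b := congrArg (fun z : S1 ℤ_[2] => z.a.b) h
  rw [c1_apply]
  apply S1.ext
  · apply K1.ext
    · rfl
    · exact neg_o2 h2.symm
  · exact h1

theorem ty10 {z : S1 ℤ_[2]} (h : sf _ z = -z) (h' : se _ z = z) : ∃ p, z = ff _ * c1 _ p := by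
  refine ⟨z.a.b, ?_⟩
  have h1 := z_b h'
  rw [sf_apply] at h
  have h2 : z.a.a = -z.a.a := congrArg (fun z : S1 ℤ_[2] => z.a.a) h
  rw [fc_eq]
  apply S1.ext
  · apply K1.ext
    · exact neg_o2 h2
    · rfl
  · exact h1

theorem ty01 {z : S1 ℤ_[2]} (h : sf _ z = z) (h' : se _ z = -z) : ∃ p, z = ee _ * c1 _ p := by
  refine ⟨z.b.a, ?_⟩
  have h1 := z_a h'
  rw [sf_apply] at h
  have h2 : -z.b.b = z.b.b := congrArg (fun z : S1 ℤ_[2] => z.b.b) h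
  rw [ec_eq]
  apply S1.ext
  · exact h1
  · apply K1.ext
    · rfl
    · exact neg_o2 h2.symm

theorem ty11 {z : S1 ℤ_[2]} (h : sf _ z = -z) (h' : se _ z = -z) :
    ∃ p, z = ee _ * (ff _ * c1 _ p) := by
  refine ⟨z.b.b, ?_⟩
  have h1 := z_a h'
  rw [sf_apply] at h
  have h2 : z.b.a = -z.b.a := congrArg (fun z : S1 ℤ_[2] => z.b.a) h
  rw [efc_eq]
  apply S1.ext
  · exact h1
  · apply K1.ext
    · exact neg_o2 h2
    · rfl

/-- the images of the generators under `r1 n` -/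
theorem r1m_ga {R : Type} [CommRing R] (g : ℤ →+* R) (n : ℕ) :
    SLm (S1m g) (r1 n (iA _ ga)) = mu1 (ee R) (ff R) (ee_eq R) (ff_eq R) := by
  rw [r1_iA, rF1_ga, map_mu1]
  unfold mu1
  apply mx_congr <;> simp only [S1m_ee, S1m_ff]

theorem r1m_gb {R : Type} [CommRing R] (g : ℤ →+* R) (n : ℕ) :
    SLm (S1m g) (r1 n (iA _ gb)) = mv1 (ee R) (ff R) (ee_eq R) (ff_eq R) := by
  rw [r1_iA, rF1_gb, map_mv1]
  unfold mv1
  apply mx_congr <;> simp only [S1m_ee, S1m_ff]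

theorem mt1_pow {R : Type} [CommRing R] (e f : R) (n : ℕ) :
    mt1 e f ^ n = mx 1 (n * ((e ^ 2 - 1) * f)) 0 1 (by ring) := by
  induction n with
  | zero =>
    rw [pow_zero, mx_one]
    apply mx_congr <;> simp
  | succ k ih =>
    rw [pow_succ, ih]
    unfold mt1
    rw [mx_mul]
    apply mx_congr
    · ring
    · push_cast; ring
    · ring
    · ring

theorem r1m_tA {R : Type} [CommRing R] (g : ℤ →+* R) (n : ℕ) :
    SLm (S1m g) (r1 n (tA _)) =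
      mx 1 (n * ((ee R ^ 2 - 1) * ff R)) 0 1 (by ring) := by
  rw [r1_tA, map_pow, map_mt1, mt1_pow]
  apply mx_congr <;> simp only [S1m_ee, S1m_ff]

/-- the entries of `r (iA ga)` -/
theorem ent_ga {n : ℕ} {Λ : Type} [Group Λ] {Φ : NatBij (GA (al1 ^ n)) Λ} {ρ : Λ →* SL2 Z1}
    {r : GA (al1 ^ n) →* SL2 (S1 ℤ_[2])} (h : Mt n Φ ρ r) : ∃ a b c d : O2,
    (r (iA _ ga)).val =
      ee ℤ_[2] • !![ff ℤ_[2] * c1 ℤ_[2] a, c1 ℤ_[2] b; c1 ℤ_[2] c, ff ℤ_[2] * c1 ℤ_[2] d] := by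
  have h1 := h.tf (iA _ ga)
  have h2 := h.te (iA _ ga)
  have h3 : chf n (iA (al1 ^ n) ga) ≠ 1 := by rw [chf_iA, ch0f_ga]; exact one_ne
  have h4 : che n (iA (al1 ^ n) ga) ≠ 1 := by rw [che_iA, ch0e_ga]; exact one_ne
  rw [mus_ne _ h3] at h1
  rw [mus_ne _ h4] at h2
  set g := r (iA _ ga) with hg
  obtain ⟨a, ha⟩ := ty11 (congrArg (fun z : SL2 (S1 ℤ_[2]) => z.val 0 0) h1)
    (congrArg (fun z : SL2 (S1 ℤ_[2]) => z.val 0 0) h2)
  obtain ⟨b, hb⟩ := ty01 (neg_injective (congrArg (fun z : SL2 (S1 ℤ_[2]) => z.val 0 1) h1))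
    (congrArg (fun z : SL2 (S1 ℤ_[2]) => z.val 0 1) h2)
  obtain ⟨c, hc⟩ := ty01 (neg_injective (congrArg (fun z : SL2 (S1 ℤ_[2]) => z.val 1 0) h1))
    (congrArg (fun z : SL2 (S1 ℤ_[2]) => z.val 1 0) h2)
  obtain ⟨d, hd⟩ := ty11 (congrArg (fun z : SL2 (S1 ℤ_[2]) => z.val 1 1) h1)
    (congrArg (fun z : SL2 (S1 ℤ_[2]) => z.val 1 1) h2)
  refine ⟨a, b, c, d, ?_⟩
  apply Matrix.ext
  intro i j
  fin_cases i <;> fin_cases j
  · exact ha
  · exact hb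
  · exact hc
  · exact hd

/-- the entries of `r (iA gb)` -/
theorem ent_gb {n : ℕ} {Λ : Type} [Group Λ] {Φ : NatBij (GA (al1 ^ n)) Λ} {ρ : Λ →* SL2 Z1}
    {r : GA (al1 ^ n) →* SL2 (S1 ℤ_[2])} (h : Mt n Φ ρ r) : ∃ a b c d : O2,
    (r (iA _ gb)).val =
      ee ℤ_[2] • !![c1 ℤ_[2] a, ff ℤ_[2] * c1 ℤ_[2] b; ff ℤ_[2] * c1 ℤ_[2] c, c1 ℤ_[2] d] := by
  have h1 := h.tf (iA _ gb)
  have h2 := h.te (iA _ gb)
  have h3 : chf n (iA (al1 ^ n) gb) = 1 := by rw [chf_iA, ch0f_gb]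
  have h4 : che n (iA (al1 ^ n) gb) ≠ 1 := by rw [che_iA, ch0e_gb]; exact one_ne
  rw [h3, mus_one] at h1
  rw [mus_ne _ h4] at h2
  set g := r (iA _ gb) with hg
  obtain ⟨a, ha⟩ := ty01 (congrArg (fun z : SL2 (S1 ℤ_[2]) => z.val 0 0) h1)
    (congrArg (fun z : SL2 (S1 ℤ_[2]) => z.val 0 0) h2)
  obtain ⟨b, hb⟩ := ty11 (neg_eq_iff_eq_neg.1 (congrArg (fun z : SL2 (S1 ℤ_[2]) => z.val 0 1) h1))
    (congrArg (fun z : SL2 (S1 ℤ_[2]) => z.val 0 1) h2)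
  obtain ⟨c, hc⟩ := ty11 (neg_eq_iff_eq_neg.1 (congrArg (fun z : SL2 (S1 ℤ_[2]) => z.val 1 0) h1))
    (congrArg (fun z : SL2 (S1 ℤ_[2]) => z.val 1 0) h2)
  obtain ⟨d, hd⟩ := ty01 (congrArg (fun z : SL2 (S1 ℤ_[2]) => z.val 1 1) h1)
    (congrArg (fun z : SL2 (S1 ℤ_[2]) => z.val 1 1) h2)
  refine ⟨a, b, c, d, ?_⟩
  apply Matrix.ext
  intro i j
  fin_cases i <;> fin_cases j
  · exact ha
  · exact hb
  · exact hc
  · exact hd

end Pool.Agent.F8.D1
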