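import Pool.Agent.Lib.MP_305fdd_al.F8.D1.X.Cd

/-!
# MP_305fdd_al, `d = 1`, block X1: the intertwiner for the generators of `F`
-/

set_option autoImplicit false

namespace Pool.Agent.F8.D1

open Pool.Agent.MP_305fdd_al Pool.Agent.Lib.MP_305fdd_al Pool.Agent.F2X Pool.Agent.F8
  Pool.Agent.F8.HN Pool.Agent.F8.AB
open Pool.Agent.F8.D7 (mus mus_one mus_ne mus_map sgn)
open scoped QuadraticAlgebra

section

variable {n : ℕ} {Λ : Type} [Group Λ] {Φ : NatBij (GA (al1 ^ n)) Λ} {ρ : Λ →* SL2 Z1}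
  {r : GA (al1 ^ n) →* SL2 (S1 ℤ_[2])}

theorem Mt.tr' (h : Mt n Φ ρ r) (g : GA (al1 ^ n)) :
    tr (r g) = tr (SLm (S1m (Int.castRingHom ℤ_[2])) (r1 n g)) := by
  rw [h.trc, tr_map]

/-- the relations between the entries -/
theorem rels (h : Mt n Φ ρ r) {a b c d a' b' c' d' : O2}
    (hU : (r (iA _ ga)).val =
      ee ℤ_[2] • !![ff ℤ_[2] * c1 ℤ_[2] a, c1 ℤ_[2] b; c1 ℤ_[2] c, ff ℤ_[2] * c1 ℤ_[2] d])
    (hV : (r (iA _ gb)).val =
      ee ℤ_[2] • !![c1 ℤ_[2] a', ff ℤ_[2] * c1 ℤ_[2] b'; ff ℤ_[2] * c1 ℤ_[2] c', c1 ℤ_[2] d']) :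
    pp ℤ_[2] * (a * d) - b * c = -ii ℤ_[2] ∧ a + d = 1 - ii ℤ_[2] ∧
    a' * d' - pp ℤ_[2] * (b' * c') = -ii ℤ_[2] ∧ a' + d' = -2 ∧
    a * a' + b * c' + c * b' + d * d' = ii ℤ_[2] - 3 := by
  have u00 : (r (iA _ ga)).val 0 0 = ee _ * (ff _ * c1 _ a) := by rw [hU]; rfl
  have u01 : (r (iA _ ga)).val 0 1 = ee _ * c1 _ b := by rw [hU]; rfl
  have u10 : (r (iA _ ga)).val 1 0 = ee _ * c1 _ c := by rw [hU]; rfl
  have u11 : (r (iA _ ga)).val 1 1 = ee _ * (ff _ * c1 _ d) := by rw [hU]; rfl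
  have v00 : (r (iA _ gb)).val 0 0 = ee _ * c1 _ a' := by rw [hV]; rfl
  have v01 : (r (iA _ gb)).val 0 1 = ee _ * (ff _ * c1 _ b') := by rw [hV]; rfl
  have v10 : (r (iA _ gb)).val 1 0 = ee _ * (ff _ * c1 _ c') := by rw [hV]; rfl
  have v11 : (r (iA _ gb)).val 1 1 = ee _ * c1 _ d' := by rw [hV]; rfl
  have dU := G.SL_det (r (iA _ ga))
  have dV := G.SL_det (r (iA _ gb))
  have tU := h.tr' (iA _ ga)
  have tV := h.tr' (iA _ gb)
  have tUV := h.tr' (iA _ ga * iA _ gb)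
  rw [u00, u01, u10, u11] at dU
  rw [v00, v01, v10, v11] at dV
  rw [tr_eq, u00, u11, r1m_ga] at tU
  rw [tr_eq, v00, v11, r1m_gb] at tV
  rw [map_mul, map_mul, map_mul, tr_eq, G.SL_mul, G.SL_mul, u00, u01, u10, u11, v00, v01, v10,
    v11, r1m_ga, r1m_gb, w8_eq] at tUV
  unfold mu1 at tU
  unfold mv1 at tV
  unfold w8 at tUV
  rw [mx_tr] at tU tV tUV
  have he := ee_sq ℤ_[2]
  have hf := ff_sq ℤ_[2]
  have hi := ii_sq ℤ_[2]
  have h1 : ii ℤ_[2] * (pp ℤ_[2] * (a * d) - b * c) = 1 := by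
    apply c1_inj
    rw [map_mul, map_sub, map_mul, map_mul, map_mul, map_one, ← he, ← hf]
    linear_combination dU
  have h3 : ii ℤ_[2] * (a' * d' - pp ℤ_[2] * (b' * c')) = 1 := by
    apply c1_inj
    rw [map_mul, map_sub, map_mul, map_mul, map_mul, map_one, ← he, ← hf]
    linear_combination dV
  have h5 : ii ℤ_[2] * (a * a' + b * c' + c * b' + d * d') = -3 * ii ℤ_[2] - 1 := by
    apply fc_inj
    simp only [map_mul, map_sub, map_add, map_neg, map_one, map_ofNat, ← he]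
    linear_combination tUV
  refine ⟨?_, ?_, ?_, ?_, ?_⟩
  · linear_combination (-ii ℤ_[2]) * h1 + (pp ℤ_[2] * (a * d) - b * c) * hi
  · apply efc_inj
    simp only [map_sub, map_add, map_one, ← he]
    linear_combination tU
  · linear_combination (-ii ℤ_[2]) * h3 + (a' * d' - pp ℤ_[2] * (b' * c')) * hi
  · apply ec_inj
    simp only [map_neg, map_add, map_ofNat]
    linear_combination tV
  · linear_combination (-ii ℤ_[2]) * h5 + (a * a' + b * c' + c * b' + d * d' + 3) * hi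

theorem mu1_val {R : Type} [CommRing R] : (mu1 (ee R) (ff R) (ee_eq R) (ff_eq R)).val =
    ee R • !![ff R * -c1 R (ii R), -c1 R (ii R); c1 R (ii R), ff R] := by
  have he := ee_sq R
  rw [← he]
  apply Matrix.ext
  intro i j
  fin_cases i <;> fin_cases j
  · show -(ee R ^ 3 * ff R) = ee R * (ff R * -ee R ^ 2)
    ring
  · show -ee R ^ 3 = ee R * -ee R ^ 2
    ring
  · show ee R ^ 3 = ee R * ee R ^ 2
    ring
  · show ee R * ff R = ee R * ff R
    rfl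

theorem mv1_val {R : Type} [CommRing R] : (mv1 (ee R) (ff R) (ee_eq R) (ff_eq R)).val =
    ee R • !![-1, ff R * c1 R (ii R); ff R * -c1 R (ii R), -1] := by
  have he := ee_sq R
  rw [← he]
  apply Matrix.ext
  intro i j
  fin_cases i <;> fin_cases j
  · show -ee R = ee R * -1
    ring
  · show ee R ^ 3 * ff R = ee R * (ff R * ee R ^ 2)
    ring
  · show -(ee R ^ 3 * ff R) = ee R * (ff R * -ee R ^ 2)
    ring
  · show -ee R = ee R * -1
    ring

/-- the shape of the intertwiner -/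
def Shape (X : Matrix (Fin 2) (Fin 2) (S1 ℤ_[2])) : Prop := ∃ x1 x2 x3 x4 : O2,
  (X = !![c1 _ x1, ff _ * c1 _ x2; ff _ * c1 _ x3, c1 _ x4] ∧ IsUnit x1 ∧ IsUnit x4) ∨
  (X = !![ff _ * c1 _ x1, c1 _ x2; c1 _ x3, ff _ * c1 _ x4] ∧ IsUnit x2 ∧ IsUnit x3)

theorem exists_X (h : Mt n Φ ρ r) : ∃ X : Matrix (Fin 2) (Fin 2) (S1 ℤ_[2]), Shape X ∧
    X * (r (iA _ ga)).val = (mu1 (ee _) (ff _) (ee_eq _) (ff_eq _)).val * X ∧
    X * (r (iA _ gb)).val = (mv1 (ee _) (ff _) (ee_eq _) (ff_eq _)).val * X := by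
  obtain ⟨a, b, c, d, hU⟩ := ent_ga h
  obtain ⟨a', b', c', d', hV⟩ := ent_gb h
  obtain ⟨h1, h2, h3, h4, h5⟩ := rels h hU hV
  rw [hU, hV, mu1_val, mv1_val]
  have he := ee_sq ℤ_[2]
  have hf' := ff_sq ℤ_[2]
  have hi := ii_sq ℤ_[2]
  have hp := pp_eq ℤ_[2]
  have hb : rs b = 1 := by
    have h6 := congrArg rs h1
    simp only [map_sub, map_mul, rs_pp, zero_mul, map_neg, rs_ii, zero_sub] at h6
    rcases zmod2 (rs b) with h7 | h7
    · rw [h7, zero_mul, neg_zero] at h6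
      exact absurd h6 (by decide)
    · exact h7
  obtain ⟨β, hβ⟩ := (unit_of_rs hb).exists_right_inv
  obtain ⟨B, hB⟩ : ∃ B, B = β * b' := ⟨_, rfl⟩
  obtain ⟨D, hD⟩ : ∃ D, D = d' + pp ℤ_[2] * (a * B) := ⟨_, rfl⟩
  obtain ⟨A, hA⟩ : ∃ A, A = a' - pp ℤ_[2] * (a * B) := ⟨_, rfl⟩
  obtain ⟨C, hC⟩ : ∃ C, C = a * a' + b * c' - a * D := ⟨_, rfl⟩
  have hbB : b * B = b' := by rw [hB]; linear_combination b' * hβ
  have k1 : A + D = -2 := by rw [hA, hD]; linear_combination h4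
  have k2 : C + ii ℤ_[2] * B + (1 - ii ℤ_[2]) * D = ii ℤ_[2] - 3 := by
    rw [hC, hD]
    linear_combination h5 + B * h1 + c * hbB - (d' + pp ℤ_[2] * (a * B)) * h2
  have k3 : A * D - pp ℤ_[2] * (B * C) = -ii ℤ_[2] := by
    rw [hC, hA, hD]
    linear_combination h3 - pp ℤ_[2] * c' * hbB
  obtain ⟨x, y, e1, e2, hu⟩ := mid k1 k2 k3
  -- in the ring `S1 ℤ₂`
  set i := c1 ℤ_[2] (ii ℤ_[2]) with hi0
  set f := ff ℤ_[2] with hf0
  have Hi : i * i = -1 := by rw [hi0, ← map_mul, hi, map_neg, map_one]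
  have Hp : c1 ℤ_[2] (pp ℤ_[2]) = 1 + i := by rw [hp, map_add, map_one]
  have Hf : f * f = 1 + i := by rw [← pow_two, hf', Hp]
  have H1 : (1 + i) * (c1 _ a * c1 _ d) - c1 _ b * c1 _ c = -i := by
    have h6 := congrArg (c1 ℤ_[2]) h1
    rw [map_sub, map_mul, map_mul, map_mul, Hp, map_neg] at h6
    exact h6
  have H2 : c1 _ a + c1 _ d = 1 - i := by
    have h6 := congrArg (c1 ℤ_[2]) h2
    rw [map_sub, map_add, map_one] at h6
    exact h6
  have HB : c1 _ b * c1 _ B = c1 _ b' := by rw [← map_mul, hbB]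
  have HD : c1 _ D = c1 _ d' + (1 + i) * c1 _ a * c1 _ B := by
    rw [hD, map_add, map_mul, map_mul, Hp, mul_assoc]
  have HA : c1 _ A + (1 + i) * c1 _ a * c1 _ B = c1 _ a' := by
    rw [hA, map_sub, map_mul, map_mul, Hp, mul_assoc]
    ring
  have HC : c1 _ C + c1 _ a * c1 _ D = c1 _ a * c1 _ a' + c1 _ b * c1 _ c' := by
    rw [hC, map_sub, map_add, map_mul, map_mul, map_mul]
    ring
  have PU := gPU Hf H1 H2
  have PV := gPV Hf HB HA HC HD
  have Qn := gQn Hi Hf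
  have Qv := gQv Hi Hf
  rcases hu with hx | ⟨x', hx', hy⟩
  · have G1 : c1 _ x * (c1 _ A + i) + (1 + i) * c1 _ y * (c1 _ C + i) = 0 := by
      have h6 : x * (A + ii ℤ_[2]) + pp ℤ_[2] * y * (C + ii ℤ_[2]) = 0 := by
        linear_combination -e1 + x * k1 + pp ℤ_[2] * y * k2 + pp ℤ_[2] * y * hi
      have h7 := congrArg (c1 ℤ_[2]) h6
      simp only [map_add, map_mul, map_zero, Hp] at h7
      exact h7
    have G2 : c1 _ x * (c1 _ B + 1) + c1 _ y * (c1 _ D + i + 2) = 0 := by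
      have h7 := congrArg (c1 ℤ_[2]) e2
      simp only [map_add, map_mul, map_zero, map_one, map_ofNat] at h7
      exact h7
    have G3 : c1 _ x * (c1 _ C + i + 2) + c1 _ y * (i * c1 _ A + 2 * c1 _ C - i * (i - 2)) = 0 := by
      have h6 : x * (C + ii ℤ_[2] + 2) + y * (ii ℤ_[2] * A + 2 * C - ii ℤ_[2] * (ii ℤ_[2] - 2)) =
          0 := by
        rw [hp] at e1
        linear_combination (-ii ℤ_[2]) * e2 - (1 - ii ℤ_[2]) * e1 + (x + 2 * y) * k2 +
          y * ii ℤ_[2] * k1 + (x + y * (ii ℤ_[2] * D - ii ℤ_[2] * B + 2 * ii ℤ_[2] - D -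
          ii ℤ_[2] * ii ℤ_[2] - 2)) * hi
      have h7 := congrArg (c1 ℤ_[2]) h6
      simp only [map_add, map_mul, map_zero, map_ofNat, map_sub] at h7
      exact h7
    have G4 : c1 _ x * (c1 _ D - (i - 2)) + c1 _ y * ((1 + i) * i * c1 _ B + 2 * c1 _ D +
        (1 + i) * (i + 2) - 2 * (i - 2)) = 0 := by
      have h6 : x * (D - (ii ℤ_[2] - 2)) + y * ((1 + ii ℤ_[2]) * ii ℤ_[2] * B + 2 * D +
          (1 + ii ℤ_[2]) * (ii ℤ_[2] + 2) - 2 * (ii ℤ_[2] - 2)) = 0 := by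
        rw [hp] at e1
        linear_combination e1 + y * (D + 2 - ii ℤ_[2]) * hi
      have h7 := congrArg (c1 ℤ_[2]) h6
      simp only [map_add, map_mul, map_zero, map_one, map_ofNat, map_sub] at h7
      exact h7
    have mn := gmn (x := c1 _ x) (y := c1 _ y) Hi Hf
    have mv := gmv Hf G1 G2 G3 G4
    refine ⟨!![-i, 0; i * f, 1] * !![c1 _ x, f * c1 _ y; i * f * c1 _ y, c1 _ x + 2 * c1 _ y] *
      !![1, 0; f * c1 _ a, c1 _ b], ⟨-ii ℤ_[2] * (x + pp ℤ_[2] * y * a), -ii ℤ_[2] * y * b,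
      ii ℤ_[2] * (x + pp ℤ_[2] * y * a) + ii ℤ_[2] * y + (x + 2 * y) * a,
      (x + pp ℤ_[2] * y) * b, Or.inl ⟨?_, ?_, ?_⟩⟩, ?_, ?_⟩
    · rw [gX Hi Hf]
      apply mat_congr
      · simp only [map_mul, map_neg, map_add, Hp, ← hi0]
      · simp only [map_mul, map_neg, ← hi0, ← hf0]
      · simp only [map_mul, map_add, Hp, map_ofNat, ← hi0, ← hf0]
      · simp only [map_mul, map_add, Hp]
    · apply unit_of_rs
      simp only [map_mul, map_neg, map_add, rs_ii, rs_pp, rs_of_unit hx, zero_mul, add_zero,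
        mul_one]
      decide
    · apply unit_of_rs
      simp only [map_mul, map_add, rs_pp, rs_of_unit hx, hb, zero_mul, add_zero, mul_one]
    · rw [Matrix.mul_smul, Matrix.smul_mul, gconj PU mn Qn]
    · rw [Matrix.mul_smul, Matrix.smul_mul, gconj PV mv Qv]
  · subst hx'
    have G1 : c1 _ x' * (c1 _ A + i) + c1 _ y * (c1 _ C + i) = 0 := by
      have h6 : x' * (A + ii ℤ_[2]) + y * (C + ii ℤ_[2]) = 0 := by
        apply pp_nz
        linear_combination -e1 + pp ℤ_[2] * x' * k1 + pp ℤ_[2] * y * k2 + pp ℤ_[2] * y * hi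
      have h7 := congrArg (c1 ℤ_[2]) h6
      simp only [map_add, map_mul, map_zero] at h7
      exact h7
    have G2 : (1 + i) * c1 _ x' * (c1 _ B + 1) + c1 _ y * (c1 _ D + i + 2) = 0 := by
      have h7 := congrArg (c1 ℤ_[2]) e2
      simp only [map_add, map_mul, map_zero, map_one, map_ofNat, Hp] at h7
      exact h7
    have G3 : (1 + i) * c1 _ x' * (c1 _ C + i + 2) +
        c1 _ y * (i * c1 _ A + 2 * c1 _ C - i * (i - 2)) = 0 := by
      have h6 : pp ℤ_[2] * x' * (C + ii ℤ_[2] + 2) +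
          y * (ii ℤ_[2] * A + 2 * C - ii ℤ_[2] * (ii ℤ_[2] - 2)) = 0 := by
        have e1' : pp ℤ_[2] * x' * (D - (ii ℤ_[2] - 2)) + y * ((1 + ii ℤ_[2]) * (ii ℤ_[2] * B +
            (1 - ii ℤ_[2]) * D - (-ii ℤ_[2] - 2) - (1 - ii ℤ_[2]) * (ii ℤ_[2] - 2))) = 0 := by
          rw [← hp]; exact e1
        linear_combination (-ii ℤ_[2]) * e2 - (1 - ii ℤ_[2]) * e1' +
          (pp ℤ_[2] * x' + 2 * y) * k2 +
          y * ii ℤ_[2] * k1 + (pp ℤ_[2] * x' + y * (ii ℤ_[2] * D - ii ℤ_[2] * B + 2 * ii ℤ_[2] - D -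
          ii ℤ_[2] * ii ℤ_[2] - 2)) * hi
      have h7 := congrArg (c1 ℤ_[2]) h6
      simp only [map_add, map_mul, map_zero, map_ofNat, map_sub, Hp] at h7
      exact h7
    have G4 : c1 _ x' * (c1 _ D - (i - 2)) + c1 _ y * (i * c1 _ B + (1 - i) * c1 _ D +
        (i + 2) - (1 - i) * (i - 2)) = 0 := by
      have h6 : x' * (D - (ii ℤ_[2] - 2)) + y * (ii ℤ_[2] * B + (1 - ii ℤ_[2]) * D +
          (ii ℤ_[2] + 2) - (1 - ii ℤ_[2]) * (ii ℤ_[2] - 2)) = 0 := by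
        apply pp_nz
        linear_combination e1
      have h7 := congrArg (c1 ℤ_[2]) h6
      simp only [map_add, map_mul, map_zero, map_one, map_ofNat, map_sub] at h7
      exact h7
    have mn := gmn' (x := c1 _ x') (y := c1 _ y) (i := i) (f := f)
    have mv := gmv' Hi Hf G1 G2 G3 G4
    refine ⟨!![-i, 0; i * f, 1] * !![f * c1 _ x', c1 _ y; i * c1 _ y,
      f * (c1 _ x' + (1 - i) * c1 _ y)] * !![1, 0; f * c1 _ a, c1 _ b],
      ⟨-ii ℤ_[2] * (x' + y * a), -ii ℤ_[2] * y * b,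
      ii ℤ_[2] * pp ℤ_[2] * (x' + y * a) + ii ℤ_[2] * y +
      pp ℤ_[2] * (x' + (1 - ii ℤ_[2]) * y) * a, (x' + y) * b, Or.inr ⟨?_, ?_, ?_⟩⟩, ?_, ?_⟩
    · rw [gX' Hf]
      apply mat_congr
      · simp only [map_mul, map_neg, map_add, ← hi0, ← hf0]
      · simp only [map_mul, map_neg, ← hi0]
      · simp only [map_mul, map_add, Hp, map_one, map_sub, ← hi0]
      · simp only [map_mul, map_add, ← hf0]
    · apply unit_of_rs
      simp only [map_mul, map_neg, rs_ii, rs_of_unit hy, hb, mul_one]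
      decide
    · apply unit_of_rs
      simp only [map_mul, map_add, rs_pp, rs_of_unit hy, rs_ii, zero_mul, mul_zero, add_zero,
        zero_add, mul_one]
    · rw [Matrix.mul_smul, Matrix.smul_mul, gconj PU mn Qn]
    · rw [Matrix.mul_smul, Matrix.smul_mul, gconj PV mv Qv]

end

end Pool.Agent.F8.D1
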