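import Pool.Agent.Lib.MP_305fdd_al.F8.D1.X.Al

/-!
# MP_305fdd_al, `d = 1`, block X1: the finite ring `ℤ[e, f] / f⁶` and the integral lift
-/

set_option autoImplicit false

namespace Pool.Agent.F8.D1

open Pool.Agent.MP_305fdd_al Pool.Agent.Lib.MP_305fdd_al Pool.Agent.F2X Pool.Agent.F8
  Pool.Agent.F8.HN Pool.Agent.F8.AB
open Pool.Agent.F8.D7 (mus mus_one mus_ne mus_map sgn)
open scoped QuadraticAlgebra

/-! ### The finite ring -/

/-- `ℤ[e, f] / 4` -/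
abbrev Q4 : Type := S1 (ZMod (2 ^ 2))

/-- the ideal `(f⁶)` -/
def I6 : Ideal Q4 := Ideal.span {ff (ZMod (2 ^ 2)) ^ 6}

/-- `ℤ[e, f] / f⁶` -/
abbrev Q6 : Type := Q4 ⧸ I6

instance : Finite Q6 := Finite.of_surjective (Ideal.Quotient.mk I6) Ideal.Quotient.mk_surjective

/-- the reduction on `ℤ₂[e, f]` -/
noncomputable def hp : S1 ℤ_[2] →+* Q6 :=
  (Ideal.Quotient.mk I6).comp (S1m (PadicInt.toZModPow 2))

/-- the reduction on `ℤ[e, f]` -/
def hz : Z1 →+* Q6 := (Ideal.Quotient.mk I6).comp (S1m (Int.castRingHom (ZMod (2 ^ 2))))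

theorem hp_cast (z : Z1) : hp (S1m (Int.castRingHom ℤ_[2]) z) = hz z := by
  show Ideal.Quotient.mk I6 (((S1m (PadicInt.toZModPow 2)).comp (S1m (Int.castRingHom ℤ_[2]))) z) =
    Ideal.Quotient.mk I6 _
  rw [S1m_comp, zp_cast]

theorem S1m_c1' {R S : Type} [CommRing R] [CommRing S] (g : R →+* S) (t : E1 R) :
    S1m g (c1 R t) = c1 S (E1m g t) := by
  rw [S1m_apply]
  apply S1.ext <;> apply K1.ext <;> apply QuadraticAlgebra.ext <;>
    first | rfl | exact map_zero g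

theorem hp_c1 (t : O2) : hp (c1 _ t) = Ideal.Quotient.mk I6
    (c1 _ (E1m (PadicInt.toZModPow 2) t)) := by
  show Ideal.Quotient.mk I6 (S1m (PadicInt.toZModPow 2) (c1 _ t)) = _
  rw [S1m_c1']

theorem hz_c1 (t : O1) : hz (c1 _ t) = Ideal.Quotient.mk I6
    (c1 _ (E1m (Int.castRingHom (ZMod (2 ^ 2))) t)) := by
  show Ideal.Quotient.mk I6 (S1m (Int.castRingHom (ZMod (2 ^ 2))) (c1 _ t)) = _
  rw [S1m_c1']

theorem hp_ff : hp (ff _) = hz (ff _) := by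
  rw [← hp_cast, S1m_ff]

theorem E1m_ii {R S : Type} [CommRing R] [CommRing S] (g : R →+* S) : E1m g (ii R) = ii S := by
  rw [E1m_apply]
  simp only [ii, map_zero, map_one]

theorem E1m_pp {R S : Type} [CommRing R] [CommRing S] (g : R →+* S) : E1m g (pp R) = pp S := by
  rw [E1m_apply]
  simp only [pp, map_one]

/-- lifting elements -/
theorem lift_c (x : O2) : ∃ y : O1, hp (c1 _ x) = hz (c1 _ y) := by
  obtain ⟨p, hp1⟩ := ZMod.intCast_surjective (PadicInt.toZModPow 2 x.re)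
  obtain ⟨q, hq1⟩ := ZMod.intCast_surjective (PadicInt.toZModPow 2 x.im)
  refine ⟨⟨p, q⟩, ?_⟩
  rw [hp_c1, hz_c1]
  congr 2
  rw [E1m_apply, E1m_apply]
  apply QuadraticAlgebra.ext
  · exact hp1.symm
  · exact hq1.symm

theorem fin1 : ∀ p q p' q' : ZMod (2 ^ 2), p * p' - q * q' = 1 → p * q' + q * p' = 0 →
    (p + q = 1 ∨ p + q = 3) := by
  decide +kernel

theorem fin2 : ∀ p q : ZMod (2 ^ 2), (p + q = 1 ∨ p + q = 3) → ∃ s t : ZMod (2 ^ 2),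
    (p = 1 - 2 * s - 2 * t ∧ q = 2 * s - 2 * t) ∨ (p = - 2 * s - 2 * t ∧ q = 1 + 2 * s - 2 * t) ∨
    (p = -1 - 2 * s - 2 * t ∧ q = 2 * s - 2 * t) ∨ (p = - 2 * s - 2 * t ∧ q = -1 + 2 * s - 2 * t) := by
  decide +kernel

theorem pow_c {R : Type} [CommRing R] (s t : R) :
    ff R ^ 6 * c1 R ⟨s, t⟩ = c1 R ⟨-2 * s - 2 * t, 2 * s - 2 * t⟩ := by
  have h1 : ff R ^ 6 = c1 R (pp R * pp R * pp R) := by
    rw [map_mul, map_mul, ← ff_sq]; ring
  rw [h1, ← map_mul]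
  congr 1
  apply QuadraticAlgebra.ext
  · simp only [QuadraticAlgebra.re_mul, QuadraticAlgebra.im_mul, pp]
    ring
  · simp only [QuadraticAlgebra.re_mul, QuadraticAlgebra.im_mul, pp]
    ring

theorem mk_f6 (z : Q4) : Ideal.Quotient.mk I6 (ff _ ^ 6 * z) = 0 :=
  Ideal.Quotient.eq_zero_iff_mem.2 (Ideal.mem_span_singleton.2 (dvd_mul_right _ _))

/-- lifting units -/
theorem lift_u {x : O2} (hx : IsUnit x) : ∃ k : ℕ, hp (c1 _ x) = hz (c1 _ (ii ℤ ^ k)) := by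
  have h1 : ∃ v : E1 (ZMod (2 ^ 2)), v = E1m (PadicInt.toZModPow 2) x := ⟨_, rfl⟩
  obtain ⟨v, hv⟩ := h1
  obtain ⟨x', hx'⟩ := hx.exists_right_inv
  have h2 : v * E1m (PadicInt.toZModPow 2) x' = 1 := by rw [hv, ← map_mul, hx', map_one]
  obtain ⟨v', hv'⟩ : ∃ v' : E1 (ZMod (2 ^ 2)), v' = E1m (PadicInt.toZModPow 2) x' := ⟨_, rfl⟩
  rw [← hv'] at h2
  have h3 := congrArg QuadraticAlgebra.re h2
  have h4 := congrArg QuadraticAlgebra.im h2
  simp only [QuadraticAlgebra.re_mul, QuadraticAlgebra.im_mul, QuadraticAlgebra.re_one,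
    QuadraticAlgebra.im_one] at h3 h4
  have h5 := fin1 v.re v.im v'.re v'.im (by linear_combination h3) (by linear_combination h4)
  obtain ⟨s, t, h6⟩ := fin2 _ _ h5
  rw [hp_c1, ← hv]
  have key : ∀ w : E1 (ZMod (2 ^ 2)), v = w + ⟨-2 * s - 2 * t, 2 * s - 2 * t⟩ →
      Ideal.Quotient.mk I6 (c1 _ v) = Ideal.Quotient.mk I6 (c1 _ w) := by
    intro w hw
    rw [hw, map_add, ← pow_c, map_add, mk_f6, add_zero]
  have hpw : ∀ k : ℕ, hz (c1 _ (ii ℤ ^ k)) =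
      Ideal.Quotient.mk I6 (c1 _ (ii (ZMod (2 ^ 2)) ^ k)) := by
    intro k
    rw [hz_c1, map_pow, E1m_ii]
  rcases h6 with h6 | h6 | h6 | h6
  · refine ⟨0, ?_⟩
    rw [hpw]
    apply key
    rw [pow_zero]
    apply QuadraticAlgebra.ext
    · rw [QuadraticAlgebra.re_add, h6.1, QuadraticAlgebra.re_one]; ring
    · rw [QuadraticAlgebra.im_add, h6.2, QuadraticAlgebra.im_one]; ring
  · refine ⟨1, ?_⟩
    rw [hpw]
    apply key
    rw [pow_one]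
    apply QuadraticAlgebra.ext
    · rw [QuadraticAlgebra.re_add, h6.1]
      show _ = 0 + _
      ring
    · rw [QuadraticAlgebra.im_add, h6.2]
      show _ = 1 + _
      ring
  · refine ⟨2, ?_⟩
    rw [hpw]
    apply key
    rw [pow_two (ii (ZMod (2 ^ 2))), ii_sq]
    apply QuadraticAlgebra.ext
    · rw [QuadraticAlgebra.re_add, h6.1, QuadraticAlgebra.re_neg, QuadraticAlgebra.re_one]; ring
    · rw [QuadraticAlgebra.im_add, h6.2, QuadraticAlgebra.im_neg, QuadraticAlgebra.im_one]; ring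
  · refine ⟨3, ?_⟩
    rw [hpw]
    apply key
    have h7 : ii (ZMod (2 ^ 2)) ^ 3 = -ii (ZMod (2 ^ 2)) := by
      linear_combination ii (ZMod (2 ^ 2)) * ii_sq (ZMod (2 ^ 2))
    rw [h7]
    apply QuadraticAlgebra.ext
    · rw [QuadraticAlgebra.re_add, h6.1]
      show _ = -0 + _
      ring
    · rw [QuadraticAlgebra.im_add, h6.2]
      show _ = -1 + _
      ring

/-- the lift of the entries -/
theorem lift0 (x1 x2 x3 x4 : O2) (h1 : IsUnit x1) (h4 : IsUnit x4) :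
    ∃ (m : ℕ) (y1 y2 y3 y4 : O1), y1 * y4 - pp ℤ * (y2 * y3) = ii ℤ ^ m ∧
      hp (c1 _ x1) = hz (c1 _ y1) ∧ hp (c1 _ x2) = hz (c1 _ y2) ∧
      hp (c1 _ x3) = hz (c1 _ y3) ∧ hp (c1 _ x4) = hz (c1 _ y4) := by
  obtain ⟨x', hx'⟩ := h1.exists_right_inv
  obtain ⟨A, hA⟩ := lift_u h1
  obtain ⟨w, hw⟩ := lift_c (x' * x2)
  obtain ⟨z, hz1⟩ := lift_c (x' * x3)
  have hu : IsUnit (x4 - pp _ * (x3 * x' * x2)) := by
    apply unit_of_rs
    rw [map_sub, map_mul, rs_pp, zero_mul, sub_zero, rs_of_unit h4]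
  obtain ⟨B, hB⟩ := lift_u hu
  have e2 : hp (c1 _ x2) = hp (c1 _ x1) * hp (c1 _ (x' * x2)) := by
    rw [← map_mul, ← map_mul, ← mul_assoc, hx', one_mul]
  have e3 : hp (c1 _ x3) = hp (c1 _ x1) * hp (c1 _ (x' * x3)) := by
    rw [← map_mul, ← map_mul, ← mul_assoc, hx', one_mul]
  have e4 : hp (c1 _ x4) = hp (c1 _ (pp _)) * (hp (c1 _ x1) * hp (c1 _ (x' * x3)) *
      hp (c1 _ (x' * x2))) + hp (c1 _ (x4 - pp _ * (x3 * x' * x2))) := by
    rw [← map_mul, ← map_mul, ← map_mul, ← map_mul, ← map_mul, ← map_mul, ← map_add, ← map_add]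
    congr 2
    linear_combination (-pp ℤ_[2] * x' * x3 * x2) * hx'
  have epp : hp (c1 _ (pp _)) = hz (c1 _ (pp ℤ)) := by
    rw [hp_c1, hz_c1, E1m_pp, E1m_pp]
  refine ⟨A + B, ii ℤ ^ A, ii ℤ ^ A * w, ii ℤ ^ A * z, pp ℤ * (ii ℤ ^ A * z * w) + ii ℤ ^ B,
    ?_, hA, ?_, ?_, ?_⟩
  · rw [pow_add]; ring
  · rw [e2, hA, hw, ← map_mul, ← map_mul]
  · rw [e3, hA, hz1, ← map_mul, ← map_mul]
  · rw [e4, hA, hw, hz1, hB, epp, ← map_mul, ← map_mul, ← map_mul, ← map_mul, ← map_mul,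
      ← map_mul, ← map_add, ← map_add]

end Pool.Agent.F8.D1
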