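import Pool.Agent.Lib.MP_305fdd_al.F8.D1.Lk
import Pool.Agent.Lib.MP_305fdd_al.F8.P.lz
import Pool.Agent.Lib.MP_305fdd_al.F8.P.lh

/-!
# MP_305fdd_al, `d = 1`, block X1: the matched representation over `S1 ℤ₂`
-/

set_option autoImplicit false

namespace Pool.Agent.F8.D1

open Pool.Agent.MP_305fdd_al Pool.Agent.Lib.MP_305fdd_al Pool.Agent.F2X Pool.Agent.F8
  Pool.Agent.F8.HN Pool.Agent.F8.AB
open Pool.Agent.F8.D7 (mus mus_one mus_ne mus_map sgn)
open scoped QuadraticAlgebra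

/-- `S1 ℤ_p` is a limit -/
theorem isLimS1 (p : ℕ) [Fact p.Prime] : IsLim (S1 ℤ_[p]) (fun k => S1 (ZMod (p ^ k)))
    (fun k => S1m (PadicInt.toZModPow k)) (fun k => S1m (tz p k)) := by
  have hlz := pf_lz p
  have hE : ∀ (x : ∀ k, E1 (ZMod (p ^ k))), (∀ k, tz p k (x (k + 1)).re = (x k).re) →
      (∀ k, tz p k (x (k + 1)).im = (x k).im) → ∃ y : E1 ℤ_[p],
        ∀ k, PadicInt.toZModPow k y.re = (x k).re ∧ PadicInt.toZModPow k y.im = (x k).im := by
    intro x h1 h2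
    obtain ⟨u, hu, -⟩ := hlz.2 (fun k => (x k).re) h1
    obtain ⟨v, hv, -⟩ := hlz.2 (fun k => (x k).im) h2
    exact ⟨⟨u, v⟩, fun k => ⟨hu k, hv k⟩⟩
  have hinj : ∀ u v : ℤ_[p], (∀ k, PadicInt.toZModPow k u = PadicInt.toZModPow k v) → u = v :=
    fun u v h => PadicInt.ext_of_toZModPow.1 h
  refine ⟨?_, ?_⟩
  · intro k
    have hk := hlz.1 k
    apply RingHom.ext
    intro z
    have h1 : ∀ u : ℤ_[p], tz p k (PadicInt.toZModPow (k + 1) u) = PadicInt.toZModPow k u :=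
      fun u => DFunLike.congr_fun hk u
    rw [RingHom.comp_apply, S1m_apply, S1m_apply, S1m_apply]
    simp only [ks_a, ks_b, kk1_a, kk1_b, h1]
  · intro x hx
    have hx' : ∀ k, ks (kk1 ⟨tz p k (x (k + 1)).a.a.re, tz p k (x (k + 1)).a.a.im⟩
        ⟨tz p k (x (k + 1)).a.b.re, tz p k (x (k + 1)).a.b.im⟩)
        (kk1 ⟨tz p k (x (k + 1)).b.a.re, tz p k (x (k + 1)).b.a.im⟩
        ⟨tz p k (x (k + 1)).b.b.re, tz p k (x (k + 1)).b.b.im⟩) = x k := by
      intro k
      rw [← S1m_apply]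
      exact hx k
    obtain ⟨y1, h1⟩ := hE (fun k => (x k).a.a)
      (fun k => congrArg (fun z : S1 (ZMod (p ^ k)) => z.a.a.re) (hx' k))
      (fun k => congrArg (fun z : S1 (ZMod (p ^ k)) => z.a.a.im) (hx' k))
    obtain ⟨y2, h2⟩ := hE (fun k => (x k).a.b)
      (fun k => congrArg (fun z : S1 (ZMod (p ^ k)) => z.a.b.re) (hx' k))
      (fun k => congrArg (fun z : S1 (ZMod (p ^ k)) => z.a.b.im) (hx' k))
    obtain ⟨y3, h3⟩ := hE (fun k => (x k).b.a)
      (fun k => congrArg (fun z : S1 (ZMod (p ^ k)) => z.b.a.re) (hx' k))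
      (fun k => congrArg (fun z : S1 (ZMod (p ^ k)) => z.b.a.im) (hx' k))
    obtain ⟨y4, h4⟩ := hE (fun k => (x k).b.b)
      (fun k => congrArg (fun z : S1 (ZMod (p ^ k)) => z.b.b.re) (hx' k))
      (fun k => congrArg (fun z : S1 (ZMod (p ^ k)) => z.b.b.im) (hx' k))
    refine ⟨ks (kk1 y1 y2) (kk1 y3 y4), ?_, ?_⟩
    · intro k
      show S1m (PadicInt.toZModPow k) _ = x k
      rw [S1m_apply]
      simp only [ks_a, ks_b, kk1_a, kk1_b]
      apply S1.ext <;> apply K1.ext <;> apply QuadraticAlgebra.ext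
      · exact (h1 k).1
      · exact (h1 k).2
      · exact (h2 k).1
      · exact (h2 k).2
      · exact (h3 k).1
      · exact (h3 k).2
      · exact (h4 k).1
      · exact (h4 k).2
    · intro y hy
      have hy' : ∀ k, S1m (PadicInt.toZModPow k) y = x k := hy
      have hc : ∀ k, ks (kk1 ⟨PadicInt.toZModPow k y.a.a.re, PadicInt.toZModPow k y.a.a.im⟩
          ⟨PadicInt.toZModPow k y.a.b.re, PadicInt.toZModPow k y.a.b.im⟩)
          (kk1 ⟨PadicInt.toZModPow k y.b.a.re, PadicInt.toZModPow k y.b.a.im⟩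
          ⟨PadicInt.toZModPow k y.b.b.re, PadicInt.toZModPow k y.b.b.im⟩) = x k := by
        intro k
        rw [← S1m_apply]
        exact hy' k
      apply S1.ext <;> apply K1.ext <;> apply QuadraticAlgebra.ext
      · exact hinj _ _ fun k => (congrArg (fun z : S1 (ZMod (p ^ k)) => z.a.a.re) (hc k)).trans
          (h1 k).1.symm
      · exact hinj _ _ fun k => (congrArg (fun z : S1 (ZMod (p ^ k)) => z.a.a.im) (hc k)).trans
          (h1 k).2.symm
      · exact hinj _ _ fun k => (congrArg (fun z : S1 (ZMod (p ^ k)) => z.a.b.re) (hc k)).trans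
          (h2 k).1.symm
      · exact hinj _ _ fun k => (congrArg (fun z : S1 (ZMod (p ^ k)) => z.a.b.im) (hc k)).trans
          (h2 k).2.symm
      · exact hinj _ _ fun k => (congrArg (fun z : S1 (ZMod (p ^ k)) => z.b.a.re) (hc k)).trans
          (h3 k).1.symm
      · exact hinj _ _ fun k => (congrArg (fun z : S1 (ZMod (p ^ k)) => z.b.a.im) (hc k)).trans
          (h3 k).2.symm
      · exact hinj _ _ fun k => (congrArg (fun z : S1 (ZMod (p ^ k)) => z.b.b.re) (hc k)).trans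
          (h4 k).1.symm
      · exact hinj _ _ fun k => (congrArg (fun z : S1 (ZMod (p ^ k)) => z.b.b.im) (hc k)).trans
          (h4 k).2.symm

/-- two elements of `S1 ℤ_p` with equal images are equal -/
theorem S1_sep {p : ℕ} [Fact p.Prime] {x y : S1 ℤ_[p]}
    (h : ∀ k, S1m (PadicInt.toZModPow k) x = S1m (PadicInt.toZModPow k) y) : x = y := by
  obtain ⟨z, -, hz⟩ := (isLimS1 p).2 (fun k => S1m (PadicInt.toZModPow k) x) (fun k =>
    DFunLike.congr_fun ((isLimS1 p).1 k) x)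
  rw [hz x fun k => rfl, hz y fun k => (h k).symm]

/-- the section `m ↦ (1, m, 0)` -/
def secQ (R : Type) [CommRing R] : SL2 R →* Q2 R where
  toFun m := ⟨1, m, 0⟩
  map_one' := rfl
  map_mul' x y := by
    apply Q2.ext
    · simp
    · simp
    · simp

theorem mH_secQ (R : Type) [CommRing R] : Q2.mH.comp (secQ R) = MonoidHom.id _ := rfl

theorem map_secQ {R S : Type} [CommRing R] [CommRing S] (f : R →+* S) :
    (Q2.map f).comp (secQ R) = (secQ S).comp (SLm f) := by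
  ext1 m
  apply Q2.ext
  · show Units.map f.toMonoidHom 1 = 1
    simp
  · rfl
  · ext i
    show f 0 = 0
    simp

theorem mH_mapQ {R S : Type} [CommRing R] [CommRing S] (f : R →+* S) :
    Q2.mH.comp (Q2.map f) = (SLm f).comp Q2.mH := rfl

/-- limits of representations -/
theorem exists_lim {R : Type} [CommRing R] {Rk : ℕ → Type} [∀ k, CommRing (Rk k)]
    {π : ∀ k, R →+* Rk k} {p : ∀ k, Rk (k + 1) →+* Rk k} (hlim : IsLim R Rk π p)
    {G : Type} [Group G] (r : ∀ k, G →* SL2 (Rk k)) (hr : ∀ k, (SLm (p k)).comp (r (k + 1)) = r k) :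
    ∃ r' : G →* SL2 R, ∀ k, (SLm (π k)).comp r' = r k := by
  obtain ⟨Θ', hΘ'⟩ := pf_lh R Rk π p hlim G (fun k => (secQ _).comp (r k)) (by
      intro k
      rw [← MonoidHom.comp_assoc, map_secQ, MonoidHom.comp_assoc, hr])
  refine ⟨Q2.mH.comp Θ', ?_⟩
  intro k
  have h1 := congrArg (fun f => Q2.mH.comp f) (hΘ' k)
  have h2 : Q2.mH.comp ((secQ (Rk k)).comp (r k)) = r k := rfl
  have h3 : Q2.mH.comp ((Q2.map (π k)).comp Θ') = (SLm (π k)).comp (Q2.mH.comp Θ') := rfl
  rw [← h3]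
  exact h1.trans h2

end Pool.Agent.F8.D1
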