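import Pool.Agent.Lib.MP_305fdd_al.F8.D1.X.Lim

/-!
# MP_305fdd_al, `d = 1`, block X1: the representation of `GA (al1 ^ n)` over `S1 ℤ₂` matched with `ρ`
-/

set_option autoImplicit false

namespace Pool.Agent.F8.D1

open Pool.Agent.MP_305fdd_al Pool.Agent.Lib.MP_305fdd_al Pool.Agent.F2X Pool.Agent.F8
  Pool.Agent.F8.HN Pool.Agent.F8.AB
open Pool.Agent.F8.D7 (mus mus_one mus_ne mus_map sgn)
open scoped QuadraticAlgebra

/-- base change commutes with `sf` -/
theorem S1m_sf {R S : Type} [CommRing R] [CommRing S] (g : R →+* S) (z : S1 R) :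
    S1m g (sf R z) = sf S (S1m g z) := by
  rw [S1m_apply, S1m_apply, sf_apply, sf_apply]
  apply S1.ext <;> apply K1.ext <;> apply QuadraticAlgebra.ext <;> simp

/-- base change commutes with `se` -/
theorem S1m_se {R S : Type} [CommRing R] [CommRing S] (g : R →+* S) (z : S1 R) :
    S1m g (se R z) = se S (S1m g z) := by
  rw [S1m_apply, S1m_apply, se_apply, se_apply]
  apply S1.ext <;> apply K1.ext <;> apply QuadraticAlgebra.ext <;> simp

theorem S1m_comp {R S T : Type} [CommRing R] [CommRing S] [CommRing T] (g : R →+* S) (h : S →+* T) :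
    (S1m h).comp (S1m g) = S1m (h.comp g) := by
  apply RingHom.ext
  intro z
  rw [RingHom.comp_apply, S1m_apply, S1m_apply, S1m_apply]
  simp only [ks_a, ks_b, kk1_a, kk1_b, RingHom.comp_apply]

theorem S1m_ee {R S : Type} [CommRing R] [CommRing S] (g : R →+* S) : S1m g (ee R) = ee S :=
  evs_ee _ _ _ _ _
theorem S1m_ff {R S : Type} [CommRing R] [CommRing S] (g : R →+* S) : S1m g (ff R) = ff S :=
  evs_ff _ _ _ _ _

theorem SLm_tw_sf {R S : Type} [CommRing R] [CommRing S] (g : R →+* S) (x : SL2 (S1 R)) :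
    SLm (S1m g) (tw (sf R) x) = tw (sf S) (SLm (S1m g) x) := by
  rw [tw_apply, tw_apply, mx_map]
  apply mx_congr
  · rw [S1m_sf]; rfl
  · rw [map_neg, S1m_sf]; rfl
  · rw [map_neg, S1m_sf]; rfl
  · rw [S1m_sf]; rfl

theorem SLm_se {R S : Type} [CommRing R] [CommRing S] (g : R →+* S) (x : SL2 (S1 R)) :
    SLm (S1m g) (SLm (se R) x) = SLm (se S) (SLm (S1m g) x) := by
  apply G.SL_ext
  · exact S1m_se g _
  · exact S1m_se g _
  · exact S1m_se g _
  · exact S1m_se g _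

/-- the properties of the matched representation over `S1 ℤ₂` -/
structure Mt (n : ℕ) {Λ : Type} [Group Λ] (Φ : NatBij (GA (al1 ^ n)) Λ) (ρ : Λ →* SL2 Z1)
    (r : GA (al1 ^ n) →* SL2 (S1 ℤ_[2])) : Prop where
  /-- the reductions -/
  red : ∀ k : ℕ, (SLm (S1m (PadicInt.toZModPow k))).comp r =
    Φ.invFun _ ((SLm (S1m (Int.castRingHom (ZMod (2 ^ k))))).comp ρ)
  /-- the `f`-type -/
  tf : ∀ g, tw (sf ℤ_[2]) (r g) = mus _ (r g, chf n g)
  /-- the `e`-type -/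
  te : ∀ g, SLm (se ℤ_[2]) (r g) = mus _ (r g, che n g)
  /-- the traces -/
  trc : ∀ g, tr (r g) = S1m (Int.castRingHom ℤ_[2]) (tr (r1 n g))

theorem SL_sep {x y : SL2 (S1 ℤ_[2])}
    (h : ∀ k, SLm (S1m (PadicInt.toZModPow k)) x = SLm (S1m (PadicInt.toZModPow k)) y) : x = y := by
  apply G.SL_ext
  · exact S1_sep fun k => congrArg (fun z : SL2 (S1 (ZMod (2 ^ k))) => z.val 0 0) (h k)
  · exact S1_sep fun k => congrArg (fun z : SL2 (S1 (ZMod (2 ^ k))) => z.val 0 1) (h k)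
  · exact S1_sep fun k => congrArg (fun z : SL2 (S1 (ZMod (2 ^ k))) => z.val 1 0) (h k)
  · exact S1_sep fun k => congrArg (fun z : SL2 (S1 (ZMod (2 ^ k))) => z.val 1 1) (h k)

theorem tz_cast (k : ℕ) : (tz 2 k).comp (Int.castRingHom (ZMod (2 ^ (k + 1)))) =
    Int.castRingHom (ZMod (2 ^ k)) := RingHom.ext_int _ _

theorem zp_cast (k : ℕ) : (PadicInt.toZModPow k).comp (Int.castRingHom ℤ_[2]) =
    Int.castRingHom (ZMod (2 ^ k)) := RingHom.ext_int _ _

theorem nat_mus {G H : Type} [Group G] [Group H] (Ψ : NatBij G H) {R : Type} [CommRing R]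
    [Finite R] (σ : SL2 R →* SL2 R) (θ : G →* SL2 R) (χ : G →* Multiplicative (ZMod 2))
    (h : σ.comp θ = (mus R).comp (θ.prod χ)) :
    σ.comp (Ψ.toFun _ θ) = (mus R).comp ((Ψ.toFun _ θ).prod (Ψ.toFun _ χ)) := by
  have h1 := Ψ.nat σ θ
  have h2 := Ψ.nat (mus R) (θ.prod χ)
  rw [← h1, h, h2, pair_prod]

theorem exists_mt (n : ℕ) {Λ : Type} [Group Λ] (Φ : NatBij (GA (al1 ^ n)) Λ)
    (χf χe : Λ →* Multiplicative (ZMod 2)) (hf : Φ.toFun _ (chf n) = χf)
    (he : Φ.toFun _ (che n) = χe) (ρ : Λ →* SL2 Z1) (hT : Ty χf χe ρ)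
    (htr : ∀ (S : Type) [CommRing S] [Finite S] (h : Z1 →+* S) (l : Λ),
      h (tr (ρ l)) = tr (Φ.toFun _ ((SLm h).comp (r1 n)) l)) : ∃ r, Mt n Φ ρ r := by
  have hf' : Φ.symm.toFun _ χf = chf n := by rw [← hf]; exact Φ.left_inv _ _
  have he' : Φ.symm.toFun _ χe = che n := by rw [← he]; exact Φ.left_inv _ _
  -- the types of `ρ`
  have ty1 : ∀ l, tw (sf ℤ) (ρ l) = mus _ (ρ l, χf l) := by
    intro l
    by_cases h : χf l = 1
    · rw [h, mus_one]; exact hT.f0 l h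
    · rw [mus_ne _ h]; exact hT.f1 l h
  have ty2 : ∀ l, SLm (se ℤ) (ρ l) = mus _ (ρ l, χe l) := by
    intro l
    by_cases h : χe l = 1
    · rw [h, mus_one]; exact hT.e0 l h
    · rw [mus_ne _ h]; exact hT.e1 l h
  obtain ⟨r, hr⟩ := exists_lim (isLimS1 2)
    (fun k => Φ.invFun _ ((SLm (S1m (Int.castRingHom (ZMod (2 ^ k))))).comp ρ)) (by
      intro k
      have h1 := Φ.symm.nat (SLm (S1m (tz 2 k)))
        ((SLm (S1m (Int.castRingHom (ZMod (2 ^ (k + 1)))))).comp ρ)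
      have h2 : (SLm (S1m (tz 2 k))).comp ((SLm (S1m (Int.castRingHom (ZMod (2 ^ (k + 1)))))).comp ρ)
          = (SLm (S1m (Int.castRingHom (ZMod (2 ^ k))))).comp ρ := by
        have h3 : (SLm (S1m (tz 2 k))).comp
            ((SLm (S1m (Int.castRingHom (ZMod (2 ^ (k + 1)))))).comp ρ) =
            (SLm ((S1m (tz 2 k)).comp (S1m (Int.castRingHom (ZMod (2 ^ (k + 1))))))).comp ρ := rfl
        rw [h3, S1m_comp, tz_cast]
      rw [h2] at h1
      exact h1.symm)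
  refine ⟨r, hr, ?_, ?_, ?_⟩
  · intro g
    apply SL_sep
    intro k
    rw [SLm_tw_sf, mus_map]
    have h1 : SLm (S1m (PadicInt.toZModPow k)) (r g) =
        Φ.invFun _ ((SLm (S1m (Int.castRingHom (ZMod (2 ^ k))))).comp ρ) g :=
      DFunLike.congr_fun (hr k) g
    rw [h1]
    have h2 : (tw (sf (ZMod (2 ^ k)))).comp ((SLm (S1m (Int.castRingHom (ZMod (2 ^ k))))).comp ρ) =
        (mus _).comp (((SLm (S1m (Int.castRingHom (ZMod (2 ^ k))))).comp ρ).prod χf) := by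
      ext1 l
      show tw (sf (ZMod (2 ^ k))) (SLm (S1m (Int.castRingHom (ZMod (2 ^ k)))) (ρ l)) =
        mus _ (SLm (S1m (Int.castRingHom (ZMod (2 ^ k)))) (ρ l), χf l)
      rw [← SLm_tw_sf, ty1, mus_map]
    have h3 := nat_mus Φ.symm _ _ _ h2
    rw [hf'] at h3
    exact DFunLike.congr_fun h3 g
  · intro g
    apply SL_sep
    intro k
    rw [SLm_se, mus_map]
    have h1 : SLm (S1m (PadicInt.toZModPow k)) (r g) =
        Φ.invFun _ ((SLm (S1m (Int.castRingHom (ZMod (2 ^ k))))).comp ρ) g :=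
      DFunLike.congr_fun (hr k) g
    rw [h1]
    have h2 : (SLm (se (ZMod (2 ^ k)))).comp ((SLm (S1m (Int.castRingHom (ZMod (2 ^ k))))).comp ρ) =
        (mus _).comp (((SLm (S1m (Int.castRingHom (ZMod (2 ^ k))))).comp ρ).prod χe) := by
      ext1 l
      show SLm (se (ZMod (2 ^ k))) (SLm (S1m (Int.castRingHom (ZMod (2 ^ k)))) (ρ l)) =
        mus _ (SLm (S1m (Int.castRingHom (ZMod (2 ^ k)))) (ρ l), χe l)
      rw [← SLm_se, ty2, mus_map]
    have h3 := nat_mus Φ.symm _ _ _ h2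
    rw [he'] at h3
    exact DFunLike.congr_fun h3 g
  · intro g
    apply S1_sep
    intro k
    have h1 : SLm (S1m (PadicInt.toZModPow k)) (r g) =
        Φ.invFun _ ((SLm (S1m (Int.castRingHom (ZMod (2 ^ k))))).comp ρ) g :=
      DFunLike.congr_fun (hr k) g
    rw [← RingHom.comp_apply, S1m_comp, zp_cast, ← tr_map, h1]
    obtain ⟨l, hl1, hl2⟩ := pair_val Φ.symm
      ((SLm (S1m (Int.castRingHom (ZMod (2 ^ k))))).comp ρ)
      (Φ.toFun _ ((SLm (S1m (Int.castRingHom (ZMod (2 ^ k))))).comp (r1 n))) g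
    have h4 : Φ.symm.toFun _ (Φ.toFun _ ((SLm (S1m (Int.castRingHom (ZMod (2 ^ k))))).comp (r1 n)))
        = (SLm (S1m (Int.castRingHom (ZMod (2 ^ k))))).comp (r1 n) := Φ.left_inv _ _
    rw [h4] at hl2
    have h5 := htr _ (S1m (Int.castRingHom (ZMod (2 ^ k)))) l
    rw [hl2] at h5
    have h6 : Φ.invFun _ ((SLm (S1m (Int.castRingHom (ZMod (2 ^ k))))).comp ρ) g =
      SLm (S1m (Int.castRingHom (ZMod (2 ^ k)))) (ρ l) := hl1.symm
    rw [h6, tr_map, h5]
    exact tr_map _ _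

end Pool.Agent.F8.D1
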