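import Pool.Agent.Lib.MP_305fdd_al.F8.D1.X.Alg

/-!
# MP_305fdd_al, `d = 1`, block X1: matrix identities
-/

set_option autoImplicit false

namespace Pool.Agent.F8.D1

open Pool.Agent.MP_305fdd_al Pool.Agent.Lib.MP_305fdd_al Pool.Agent.F2X Pool.Agent.F8
  Pool.Agent.F8.HN Pool.Agent.F8.AB
open scoped QuadraticAlgebra

theorem mat_congr {S : Type} {a b c d a' b' c' d' : S} (h1 : a = a') (h2 : b = b') (h3 : c = c')
    (h4 : d = d') : !![a, b; c, d] = !![a', b'; c', d'] := by
  rw [h1, h2, h3, h4]

section gen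

variable {S : Type} [CommRing S] {i f x y a b c d a' b' c' d' A B C D : S}

theorem gPU (hf : f * f = 1 + i) (h1 : (1 + i) * (a * d) - b * c = -i)
    (h2 : a + d = 1 - i) : !![1, 0; f * a, b] * !![f * a, b; c, f * d] =
      !![0, 1; i, f * (1 - i)] * !![1, 0; f * a, b] := by
  rw [Matrix.mul_fin_two, Matrix.mul_fin_two]
  apply mat_congr
  · ring
  · ring
  · linear_combination (a * a - a + a * i) * hf - h1 + (1 + i) * a * h2
  · linear_combination f * b * h2

theorem gPV (hf : f * f = 1 + i) (hB : b * B = b') (hA : A + (1 + i) * a * B = a')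
    (hC : C + a * D = a * a' + b * c') (hD : D = d' + (1 + i) * a * B) :
    !![1, 0; f * a, b] * !![a', f * b'; f * c', d'] =
      !![A, f * B; f * C, D] * !![1, 0; f * a, b] := by
  rw [Matrix.mul_fin_two, Matrix.mul_fin_two]
  apply mat_congr
  · linear_combination -hA - a * B * hf
  · linear_combination -f * hB
  · linear_combination -f * hC
  · linear_combination a * b' * hf - b * hD - (1 + i) * a * hB

theorem gmn (hi : i * i = -1) (hf : f * f = 1 + i) : !![x, f * y; i * f * y, x + 2 * y] *
    !![0, 1; i, f * (1 - i)] = !![0, 1; i, f * (1 - i)] * !![x, f * y; i * f * y, x + 2 * y] := by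
  rw [Matrix.mul_fin_two, Matrix.mul_fin_two]
  apply mat_congr
  · ring
  · linear_combination y * (1 - i) * hf - y * hi
  · linear_combination (-i * y * (1 - i)) * hf + i * y * hi
  · ring

theorem gmv (hf : f * f = 1 + i) (g1 : x * (A + i) + (1 + i) * y * (C + i) = 0)
    (g2 : x * (B + 1) + y * (D + i + 2) = 0)
    (g3 : x * (C + i + 2) + y * (i * A + 2 * C - i * (i - 2)) = 0)
    (g4 : x * (D - (i - 2)) + y * ((1 + i) * i * B + 2 * D + (1 + i) * (i + 2) - 2 * (i - 2)) = 0) :
    !![x, f * y; i * f * y, x + 2 * y] * !![A, f * B; f * C, D] =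
      !![-i, -f; f * (-i - 2), i - 2] * !![x, f * y; i * f * y, x + 2 * y] := by
  rw [Matrix.mul_fin_two, Matrix.mul_fin_two]
  apply mat_congr
  · linear_combination g1 + (y * C + i * y) * hf
  · linear_combination f * g2
  · linear_combination f * g3
  · linear_combination g4 + (i * y * B + y * (i + 2)) * hf

theorem gmn' : !![f * x, y; i * y, f * (x + (1 - i) * y)] *
    !![0, 1; i, f * (1 - i)] =
      !![0, 1; i, f * (1 - i)] * !![f * x, y; i * y, f * (x + (1 - i) * y)] := by
  rw [Matrix.mul_fin_two, Matrix.mul_fin_two]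
  apply mat_congr
  · ring
  · ring
  · ring
  · ring

theorem gmv' (hi : i * i = -1) (hf : f * f = 1 + i) (g1 : x * (A + i) + y * (C + i) = 0)
    (g2 : (1 + i) * x * (B + 1) + y * (D + i + 2) = 0)
    (g3 : (1 + i) * x * (C + i + 2) + y * (i * A + 2 * C - i * (i - 2)) = 0)
    (g4 : x * (D - (i - 2)) + y * (i * B + (1 - i) * D + (i + 2) - (1 - i) * (i - 2)) = 0) :
    !![f * x, y; i * y, f * (x + (1 - i) * y)] * !![A, f * B; f * C, D] =
      !![-i, -f; f * (-i - 2), i - 2] * !![f * x, y; i * y, f * (x + (1 - i) * y)] := by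
  rw [Matrix.mul_fin_two, Matrix.mul_fin_two]
  apply mat_congr
  · linear_combination f * g1
  · linear_combination g2 + (x * B + x + (1 - i) * y) * hf - y * hi
  · linear_combination g3 + ((x + (1 - i) * y) * C + (i + 2) * x) * hf - y * C * hi
  · linear_combination f * g4

theorem gQn (hi : i * i = -1) (hf : f * f = 1 + i) : !![-i, 0; i * f, 1] *
    !![0, 1; i, f * (1 - i)] = !![f * (-i), -i; i, f] * !![-i, 0; i * f, 1] := by
  rw [Matrix.mul_fin_two, Matrix.mul_fin_two]
  apply mat_congr
  · ring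
  · ring
  · linear_combination (-i) * hf
  · ring

theorem gQv (hi : i * i = -1) (hf : f * f = 1 + i) : !![-i, 0; i * f, 1] *
    !![-i, -f; f * (-i - 2), i - 2] = !![-1, f * i; f * (-i), -1] * !![-i, 0; i * f, 1] := by
  rw [Matrix.mul_fin_two, Matrix.mul_fin_two]
  apply mat_congr
  · linear_combination (-i * i) * hf - i * hi
  · ring
  · linear_combination (-2 * f) * hi
  · linear_combination (-i) * hf - hi

theorem gX (hi : i * i = -1) (hf : f * f = 1 + i) : !![-i, 0; i * f, 1] *
    !![x, f * y; i * f * y, x + 2 * y] * !![1, 0; f * a, b] =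
      !![-i * (x + (1 + i) * y * a), f * (-i * y * b);
        f * (i * (x + (1 + i) * y * a) + i * y + (x + 2 * y) * a), (x + (1 + i) * y) * b] := by
  rw [Matrix.mul_fin_two, Matrix.mul_fin_two]
  apply mat_congr
  · linear_combination (-i * y * a) * hf
  · ring
  · linear_combination (i * y * a * f) * hf
  · linear_combination (i * y * b) * hf + y * b * hi

theorem gX' (hf : f * f = 1 + i) : !![-i, 0; i * f, 1] *
    !![f * x, y; i * y, f * (x + (1 - i) * y)] * !![1, 0; f * a, b] =
      !![f * (-i * (x + y * a)), -i * y * b;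
        i * (1 + i) * (x + y * a) + i * y + (1 + i) * (x + (1 - i) * y) * a,
        f * ((x + y) * b)] := by
  rw [Matrix.mul_fin_two, Matrix.mul_fin_two]
  apply mat_congr
  · ring
  · ring
  · linear_combination (i * x + i * y * a + (x + (1 - i) * y) * a) * hf
  · ring

end gen

theorem gconj {M : Type} [Ring M] {P V v m v0 Q V0 : M} (h1 : P * V = v * P)
    (h2 : m * v = v0 * m) (h3 : Q * v0 = V0 * Q) : Q * m * P * V = V0 * (Q * m * P) := by
  calc Q * m * P * V = Q * m * (P * V) := by rw [mul_assoc (Q * m)]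
    _ = Q * (m * v) * P := by rw [h1]; simp only [mul_assoc]
    _ = (Q * v0) * m * P := by rw [h2]; simp only [mul_assoc]
    _ = V0 * (Q * m * P) := by rw [h3]; simp only [mul_assoc]

end Pool.Agent.F8.D1
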