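import Pool.Agent.Lib.MP_305fdd_al.F8.D1.X.Mat

/-!
# MP_305fdd_al, `d = 1`, block X1: the ring `ℤ₂[i]`
-/

set_option autoImplicit false

namespace Pool.Agent.F8.D1

open Pool.Agent.MP_305fdd_al Pool.Agent.Lib.MP_305fdd_al Pool.Agent.F2X Pool.Agent.F8
  Pool.Agent.F8.HN Pool.Agent.F8.AB
open scoped QuadraticAlgebra

/-- `ℤ₂[i]` -/
abbrev O2 : Type := E1 ℤ_[2]

/-- the residue map of `ℤ₂[i]` -/
noncomputable def rs : O2 →+* ZMod 2 := ev1 PadicInt.toZMod 1 (by decide)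

theorem rs_apply (x : O2) : rs x = PadicInt.toZMod x.re + PadicInt.toZMod x.im := by
  unfold rs
  rw [ev1_apply, mul_one]

theorem zmod2 (x : ZMod 2) : x = 0 ∨ x = 1 := by
  revert x; decide

theorem z2_dvd {x : ℤ_[2]} (h : PadicInt.toZMod x = 0) : (2 : ℤ_[2]) ∣ x := by
  have h1 : x ∈ RingHom.ker (PadicInt.toZMod (p := 2)) := h
  rw [PadicInt.ker_toZMod, PadicInt.maximalIdeal_eq_span_p, Ideal.mem_span_singleton] at h1
  exact_mod_cast h1

theorem z2_unit {x : ℤ_[2]} (h : PadicInt.toZMod x = 1) : IsUnit x := by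
  by_contra h1
  have h2 : x ∈ IsLocalRing.maximalIdeal ℤ_[2] := h1
  rw [← PadicInt.ker_toZMod, RingHom.mem_ker, h] at h2
  exact absurd h2 (by decide)

theorem dvd_of_rs {x : O2} (h : rs x = 0) : pp ℤ_[2] ∣ x := by
  rw [rs_apply, ← map_add] at h
  obtain ⟨u, hu⟩ := z2_dvd h
  refine ⟨⟨u, u - x.re⟩, ?_⟩
  apply QuadraticAlgebra.ext
  · simp [pp]
  · simp only [QuadraticAlgebra.im_mul, pp]
    linear_combination hu

theorem rs_pp : rs (pp ℤ_[2]) = 0 := by
  rw [rs_apply]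
  simp only [pp, map_one]
  decide

theorem rs_ii : rs (ii ℤ_[2]) = 1 := by
  rw [rs_apply]
  simp only [ii, map_one, map_zero]
  decide

theorem unit_of_rs {x : O2} (h : rs x = 1) : IsUnit x := by
  have h1 : PadicInt.toZMod (x.re * x.re + x.im * x.im) = 1 := by
    rw [rs_apply] at h
    rw [map_add, map_mul, map_mul]
    rcases zmod2 (PadicInt.toZMod x.re) with h2 | h2 <;>
      rcases zmod2 (PadicInt.toZMod x.im) with h3 | h3 <;> rw [h2, h3] at h ⊢ <;> revert h <;>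
      decide
  obtain ⟨v, hv⟩ := (z2_unit h1).exists_right_inv
  apply IsUnit.of_mul_eq_one (⟨x.re * v, -x.im * v⟩ : O2)
  apply QuadraticAlgebra.ext
  · simp only [QuadraticAlgebra.re_mul, QuadraticAlgebra.re_one]
    linear_combination hv
  · simp only [QuadraticAlgebra.im_mul, QuadraticAlgebra.im_one]
    ring

theorem rs_of_unit {x : O2} (h : IsUnit x) : rs x = 1 := by
  have h1 : IsUnit (rs x) := h.map rs
  rcases zmod2 (rs x) with h2 | h2
  · rw [h2] at h1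
    exact absurd h1 (by decide)
  · exact h2

/-- `π` is not a zero divisor -/
theorem pp_nz {z : O2} (h : pp ℤ_[2] * z = 0) : z = 0 := by
  have h1 := congrArg QuadraticAlgebra.re h
  have h2 := congrArg QuadraticAlgebra.im h
  simp only [QuadraticAlgebra.re_mul, QuadraticAlgebra.im_mul, pp, QuadraticAlgebra.re_zero,
    QuadraticAlgebra.im_zero] at h1 h2
  have h3 : (2 : ℤ_[2]) * z.re = 0 := by linear_combination h1 + h2
  have h4 : (2 : ℤ_[2]) * z.im = 0 := by linear_combination h2 - h1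
  have h5 : (2 : ℤ_[2]) ≠ 0 := two_ne_zero
  apply QuadraticAlgebra.ext
  · exact (mul_eq_zero.1 h3).resolve_left h5
  · exact (mul_eq_zero.1 h4).resolve_left h5

theorem pp_pow_nz {z : O2} {m : ℕ} (h : pp ℤ_[2] ^ m * z = 0) : z = 0 := by
  induction m with
  | zero => rwa [pow_zero, one_mul] at h
  | succ k ih => exact ih (pp_nz (by rw [← mul_assoc, ← pow_succ']; exact h))

theorem pp_sq : pp ℤ_[2] * pp ℤ_[2] = 2 * ii ℤ_[2] := by
  apply QuadraticAlgebra.ext <;> simp [pp, ii]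
  norm_num

theorem ppow_re (k : ℕ) (z : O2) : (2 : ℤ_[2]) ^ k ∣ (pp ℤ_[2] ^ (2 * k) * z).re ∧
    (2 : ℤ_[2]) ^ k ∣ (pp ℤ_[2] ^ (2 * k) * z).im := by
  have h1 : pp ℤ_[2] ^ (2 * k) = 2 ^ k * ii ℤ_[2] ^ k := by
    rw [pow_mul, pow_two, pp_sq, mul_pow]
  have h2 : (2 : O2) ^ k = ⟨2 ^ k, 0⟩ := by
    induction k with
    | zero => rfl
    | succ j ih =>
      have h3 : pp ℤ_[2] ^ (2 * j) = 2 ^ j * ii ℤ_[2] ^ j := by
        rw [pow_mul, pow_two, pp_sq, mul_pow]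
      rw [pow_succ, ih h3]
      apply QuadraticAlgebra.ext
      · simp only [QuadraticAlgebra.re_mul, QuadraticAlgebra.re_ofNat, pow_succ]
        ring
      · simp only [QuadraticAlgebra.im_mul, QuadraticAlgebra.im_ofNat, QuadraticAlgebra.re_ofNat]
        ring
  rw [h1, mul_assoc, h2]
  simp only [QuadraticAlgebra.re_mul, QuadraticAlgebra.im_mul]
  constructor
  · exact ⟨(ii ℤ_[2] ^ k * z).re, by simp [QuadraticAlgebra.re_mul]⟩
  · exact ⟨(ii ℤ_[2] ^ k * z).im, by simp [QuadraticAlgebra.im_mul]⟩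

theorem eq_zero_of_dvd {x : O2} (h : ∀ m, pp ℤ_[2] ^ m ∣ x) : x = 0 := by
  have h1 : ∀ k, (2 : ℤ_[2]) ^ k ∣ x.re ∧ (2 : ℤ_[2]) ^ k ∣ x.im := by
    intro k
    obtain ⟨z, rfl⟩ := h (2 * k)
    exact ppow_re k z
  have h2 : ∀ y : ℤ_[2], (∀ k, (2 : ℤ_[2]) ^ k ∣ y) → y = 0 := by
    intro y hy
    apply PadicInt.ext_of_toZModPow.1
    intro k
    obtain ⟨z, rfl⟩ := hy k
    rw [map_mul, map_pow, map_ofNat, map_zero]
    have : (2 : ZMod (2 ^ k)) ^ k = 0 := by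
      have h3 := ZMod.natCast_self (2 ^ k)
      push_cast at h3
      exact h3
    rw [this, zero_mul]
  exact QuadraticAlgebra.ext (h2 _ fun k => (h1 k).1) (h2 _ fun k => (h1 k).2)

/-- primitive vectors -/
theorem prim (x y : O2) (h : ¬ (x = 0 ∧ y = 0)) : ∃ (m : ℕ) (x' y' : O2),
    x = pp ℤ_[2] ^ m * x' ∧ y = pp ℤ_[2] ^ m * y' ∧ (IsUnit x' ∨ IsUnit y') := by
  by_contra hc
  apply h
  have h1 : ∀ m, ∃ x' y' : O2, x = pp ℤ_[2] ^ m * x' ∧ y = pp ℤ_[2] ^ m * y' := by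
    intro m
    induction m with
    | zero => exact ⟨x, y, by rw [pow_zero, one_mul], by rw [pow_zero, one_mul]⟩
    | succ k ih =>
      obtain ⟨x', y', h1, h2⟩ := ih
      have h3 : rs x' = 0 := by
        rcases zmod2 (rs x') with h4 | h4
        · exact h4
        · exact absurd ⟨k, x', y', h1, h2, Or.inl (unit_of_rs h4)⟩ hc
      have h5 : rs y' = 0 := by
        rcases zmod2 (rs y') with h4 | h4
        · exact h4
        · exact absurd ⟨k, x', y', h1, h2, Or.inr (unit_of_rs h4)⟩ hc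
      obtain ⟨x2, hx2⟩ := dvd_of_rs h3
      obtain ⟨y2, hy2⟩ := dvd_of_rs h5
      exact ⟨x2, y2, by rw [h1, hx2, pow_succ, mul_assoc], by rw [h2, hy2, pow_succ, mul_assoc]⟩
  constructor
  · apply eq_zero_of_dvd
    intro m
    obtain ⟨x', -, hx, -⟩ := h1 m
    exact ⟨x', hx⟩
  · apply eq_zero_of_dvd
    intro m
    obtain ⟨-, y', -, hy⟩ := h1 m
    exact ⟨y', hy⟩

end Pool.Agent.F8.D1
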